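import Pool.Agent.H.Tc26.Conv

/-! Definitions for the Haggkvist type theorem on tight cycle factors (helper55, MP_0d0865_co). -/

set_option autoImplicit false

namespace Pool.Agent.H.Tc55

open Finset Equiv Pool.Agent.H.Tc26

/-- How often the 2-factor `p` (a permutation) uses the edge `a b`. -/
def wt {V : Type} [DecidableEq V] (p : Perm V) (a b : V) : ℕ :=
  (if p a = b then 1 else 0) + (if p b = a then 1 else 0)

/-- The multigraph with edge weights `w` is the sum of 2-factors of type `U`. -/
def DG {V : Type} [DecidableEq V] (w : V → V → ℕ) (U : Multiset ℕ) : Prop :=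
  ∃ (J : Type) (_ : Fintype J) (p : J → Perm V), (∀ j, IsType (p j) U) ∧
    ∀ a b, w a b = ∑ j, wt (p j) a b

/-- All entries even and at least 4. -/
def Bip (U : Multiset ℕ) : Prop := ∀ u ∈ U, 2 ∣ u ∧ 4 ≤ u

/-- The sets with property `S` are the windows of tight cycle factors of type `U`, each once. -/
def DS {V : Type} [DecidableEq V] (S : Finset V → Prop) (U : Multiset ℕ) : Prop :=
  ∃ (J : Type) (_ : Fintype J) (r : J → Perm V), (∀ j, IsType (r j) U) ∧
    (∀ j v, S {v, r j v, r j (r j v)}) ∧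
    ∀ s, S s → ∃! q : J × V, s = {q.2, r q.1 q.2, r q.1 (r q.1 q.2)}

/-- Triples of `A × T` with distinct first coordinates. -/
def HS (A T : Type) [DecidableEq A] [DecidableEq T] (s : Finset (A × T)) : Prop :=
  s.card = 3 ∧ Set.InjOn Prod.fst (s : Set (A × T))

/-- Triples of `(A × Bool) × T` with distinct first coordinates, exactly two of which have the
same `A`-coordinate. -/
def PS (A T : Type) [DecidableEq A] [DecidableEq T] (s : Finset ((A × Bool) × T)) : Prop :=
  s.card = 3 ∧ Set.InjOn Prod.fst (s : Set ((A × Bool) × T)) ∧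
    ¬ Set.InjOn (fun x : (A × Bool) × T => x.1.1) (s : Set ((A × Bool) × T))

/-- The graph of a partition into 4-sets. -/
def k4 {K V : Type} [DecidableEq K] [DecidableEq V] (e : K × (Bool × Bool) ≃ V) (a b : V) : ℕ :=
  if (e.symm a).1 = (e.symm b).1 ∧ a ≠ b then 1 else 0

/-- Some union of two partitions into 4-sets is the sum of three 2-factors of type `U`. -/
def Lft (U : Multiset ℕ) : Prop :=
  ∃ (K V : Type) (_ : Fintype K) (_ : DecidableEq K) (_ : DecidableEq V)
    (e1 e2 : K × (Bool × Bool) ≃ V) (p : Fin 3 → Perm V), (∀ j, IsType (p j) U) ∧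
    ∀ a b, k4 e1 a b + k4 e2 a b = ∑ j, wt (p j) a b

theorem wt_comm {V : Type} [DecidableEq V] (p : Perm V) (a b : V) : wt p a b = wt p b a := by
  unfold wt; rw [add_comm]

theorem wt_conj {V V' : Type} [DecidableEq V] [DecidableEq V'] (e : V ≃ V') (p : Perm V)
    (a b : V') : wt (e.permCongr p) a b = wt p (e.symm a) (e.symm b) := by
  have h : ∀ x y : V', e.permCongr p x = y ↔ p (e.symm x) = e.symm y := by
    intro x y
    rw [Equiv.permCongr_apply, Equiv.eq_symm_apply]
  simp only [wt, h]

theorem DG.congr {V V' : Type} [DecidableEq V] [DecidableEq V'] {w : V → V → ℕ}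
    {U : Multiset ℕ} (h : DG w U) (e : V ≃ V') :
    DG (fun a b => w (e.symm a) (e.symm b)) U := by
  obtain ⟨J, _, p, h1, h2⟩ := h
  refine ⟨J, inferInstance, fun j => e.permCongr (p j), fun j => (h1 j).conj e, ?_⟩
  intro a b
  simp only [wt_conj]
  exact h2 _ _

theorem DG.add {V : Type} [DecidableEq V] {w w' : V → V → ℕ} {U : Multiset ℕ}
    (h : DG w U) (h' : DG w' U) : DG (fun a b => w a b + w' a b) U := by
  obtain ⟨J, _, p, h1, h2⟩ := h
  obtain ⟨J', _, p', h1', h2'⟩ := h'
  refine ⟨J ⊕ J', inferInstance, Sum.elim p p', ?_, ?_⟩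
  · rintro (j | j)
    · exact h1 j
    · exact h1' j
  · intro a b
    simp only [h2, h2', Fintype.sum_sum_type, Sum.elim_inl, Sum.elim_inr]

theorem DG.sum {V : Type} [DecidableEq V] {I : Type} [Fintype I] {w : I → V → V → ℕ}
    {U : Multiset ℕ} (h : ∀ i, DG (w i) U) : DG (fun a b => ∑ i, w i a b) U := by
  choose J hJ p h1 h2 using h
  refine ⟨Σ i, J i, inferInstance, fun q => p q.1 q.2, fun q => h1 q.1 q.2, ?_⟩
  intro a b
  rw [Fintype.sum_sigma]
  exact Finset.sum_congr rfl fun i _ => h2 i a b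

theorem DG.ext {V : Type} [DecidableEq V] {w w' : V → V → ℕ} {U : Multiset ℕ}
    (h : DG w U) (h' : ∀ a b, w' a b = w a b) : DG w' U := by
  obtain ⟨J, _, p, h1, h2⟩ := h
  exact ⟨J, inferInstance, p, h1, fun a b => (h' a b).trans (h2 a b)⟩

theorem DS.congr {V V' : Type} [DecidableEq V] [DecidableEq V'] {S : Finset V → Prop}
    {U : Multiset ℕ} (h : DS S U) (e : V ≃ V') :
    DS (fun s : Finset V' => S (s.map e.symm.toEmbedding)) U := by
  obtain ⟨J, _, r, h1, h2, h3⟩ := h
  have key : ∀ (j : J) (x : V'), ({x, e.permCongr (r j) x,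
      e.permCongr (r j) (e.permCongr (r j) x)} : Finset V').map e.symm.toEmbedding =
      {e.symm x, r j (e.symm x), r j (r j (e.symm x))} := by
    intro j x
    simp [Finset.map_insert, Equiv.permCongr_apply]
  refine ⟨J, inferInstance, fun j => e.permCongr (r j), fun j => (h1 j).conj e, ?_, ?_⟩
  · intro j v
    rw [key]
    exact h2 j _
  · intro s hs
    obtain ⟨⟨j, x⟩, hx, hu⟩ := h3 _ hs
    simp only at hx
    have inj := Finset.map_injective e.symm.toEmbedding
    refine ⟨(j, e x), ?_, ?_⟩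
    · apply inj
      simp only
      rw [key, Equiv.symm_apply_apply]
      exact hx
    · rintro ⟨j', x'⟩ h'
      simp only at h'
      have h4 := hu (j', e.symm x') (by simp only; rw [h', key])
      simp only [Prod.mk.injEq] at h4
      rw [h4.1, ← h4.2, Equiv.apply_symm_apply]

theorem DS.union {V : Type} [DecidableEq V] {S S' : Finset V → Prop} {U : Multiset ℕ}
    (h : DS S U) (h' : DS S' U) (hd : ∀ s, S s → ¬ S' s) : DS (fun s => S s ∨ S' s) U := by
  obtain ⟨J, _, r, h1, h2, h3⟩ := h
  obtain ⟨J', _, r', h1', h2', h3'⟩ := h'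
  refine ⟨J ⊕ J', inferInstance, Sum.elim r r', ?_, ?_, ?_⟩
  · rintro (j | j)
    · exact h1 j
    · exact h1' j
  · rintro (j | j) v
    · exact Or.inl (h2 j v)
    · exact Or.inr (h2' j v)
  · rintro s (hs | hs)
    · obtain ⟨⟨j, x⟩, hx, hu⟩ := h3 s hs
      refine ⟨(Sum.inl j, x), hx, ?_⟩
      rintro ⟨j' | j', x'⟩ hx'
      · have := hu (j', x') hx'
        simp only [Prod.mk.injEq] at this
        rw [this.1, this.2]
      · exfalso
        refine hd s hs ?_
        have := h2' j' x'
        simp only [Sum.elim_inr] at hx'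
        rwa [← hx'] at this
    · obtain ⟨⟨j, x⟩, hx, hu⟩ := h3' s hs
      refine ⟨(Sum.inr j, x), hx, ?_⟩
      rintro ⟨j' | j', x'⟩ hx'
      · exfalso
        refine hd s ?_ hs
        have := h2 j' x'
        simp only [Sum.elim_inl] at hx'
        rwa [← hx'] at this
      · have := hu (j', x') hx'
        simp only [Prod.mk.injEq] at this
        rw [this.1, this.2]

theorem DS.ext {V : Type} [DecidableEq V] {S S' : Finset V → Prop} {U : Multiset ℕ}
    (h : DS S U) (h' : ∀ s, S' s ↔ S s) : DS S' U := by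
  obtain ⟨J, _, r, h1, h2, h3⟩ := h
  exact ⟨J, inferInstance, r, h1, fun j v => (h' _).2 (h2 j v), fun s hs => h3 s ((h' s).1 hs)⟩

end Pool.Agent.H.Tc55
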