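import Pool.Agent.H.Tc55.Lab

/-! One level of the tree of triples (helper55, MP_0d0865_co). -/

set_option autoImplicit false

namespace Pool.Agent.H.Tc55

open Finset Equiv Pool.Agent.H.Tc26


section

variable {A : Type} [DecidableEq A] {t : ℕ}

/-- Identification of pairs of points matched by `g`. -/
def levE (g : ZMod t) : (A × ZMod t) × Bool ≃ (A × Bool) × ZMod t where
  toFun q := ((q.1.1, q.2), if q.2 then q.1.2 + g else q.1.2)
  invFun z := ((z.1.1, if z.1.2 then z.2 - g else z.2), z.1.2)
  left_inv := by rintro ⟨⟨a, x⟩, e⟩; cases e <;> simp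
  right_inv := by rintro ⟨⟨a, e⟩, x⟩; cases e <;> simp

omit [DecidableEq A] in
theorem levE_false (g : ZMod t) (a : A) (x : ZMod t) :
    levE g ((a, x), false) = ((a, false), x) := rfl

omit [DecidableEq A] in
theorem levE_true (g : ZMod t) (a : A) (x : ZMod t) :
    levE g ((a, x), true) = ((a, true), x + g) := rfl

/-- A matched pair and a point. -/
def levT (g : ZMod t) (P Q : A × ZMod t) (e : Bool) : Finset ((A × Bool) × ZMod t) :=
  {levE g (P, false), levE g (P, true), levE g (Q, e)}

theorem levT_card (g : ZMod t) {P Q : A × ZMod t} (e : Bool) (h : P.1 ≠ Q.1) :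
    (levT g P Q e).card = 3 := by
  rw [levT, Finset.card_eq_three]
  refine ⟨_, _, _, ?_, ?_, ?_, rfl⟩
  · intro h'
    have := (levE g).injective h'
    simp at this
  · intro h'
    have := (levE g).injective h'
    simp only [Prod.mk.injEq] at this
    exact h (congrArg Prod.fst this.1)
  · intro h'
    have := (levE g).injective h'
    simp only [Prod.mk.injEq] at this
    exact h (congrArg Prod.fst this.1)

theorem levT_PS (g : ZMod t) {P Q : A × ZMod t} (e : Bool) (h : P.1 ≠ Q.1) :
    PS A (ZMod t) (levT g P Q e) := by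
  obtain ⟨a, x⟩ := P
  obtain ⟨b, y⟩ := Q
  simp only at h
  refine ⟨levT_card g e h, ?_, ?_⟩
  · have hQ : (levE g ((b, y), e)).1 = (b, e) := rfl
    intro u hu v hv huv
    simp only [levT, Finset.coe_insert, Finset.coe_singleton, Set.mem_insert_iff,
      Set.mem_singleton_iff] at hu hv
    rcases hu with rfl | rfl | rfl <;> rcases hv with rfl | rfl | rfl
    · rfl
    · simp [levE_false, levE_true] at huv
    · rw [hQ, levE_false] at huv
      simp only [Prod.mk.injEq] at huv
      exact absurd huv.1 h
    · simp [levE_false, levE_true] at huv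
    · rfl
    · rw [hQ, levE_true] at huv
      simp only [Prod.mk.injEq] at huv
      exact absurd huv.1 h
    · rw [hQ, levE_false] at huv
      simp only [Prod.mk.injEq] at huv
      exact absurd huv.1.symm h
    · rw [hQ, levE_true] at huv
      simp only [Prod.mk.injEq] at huv
      exact absurd huv.1.symm h
    · rfl
  · intro hinj
    have h1 : levE g ((a, x), false) ∈ (levT g (a, x) (b, y) e : Set _) := by simp [levT]
    have h2 : levE g ((a, x), true) ∈ (levT g (a, x) (b, y) e : Set _) := by simp [levT]
    have := hinj h1 h2 rfl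
    simp [levE_false, levE_true] at this

theorem levT_inj {g g' : ZMod t} {P Q P' Q' : A × ZMod t} {e e' : Bool} (h : P.1 ≠ Q.1)
    (h' : P'.1 ≠ Q'.1) (heq : levT g P Q e = levT g' P' Q' e') :
    g = g' ∧ P = P' ∧ Q = Q' ∧ e = e' := by
  obtain ⟨a, x⟩ := P
  obtain ⟨b, y⟩ := Q
  obtain ⟨a', x'⟩ := P'
  obtain ⟨b', y'⟩ := Q'
  simp only at h h'
  have hm : ∀ z, z ∈ levT g (a, x) (b, y) e ↔ z ∈ levT g' (a', x') (b', y') e' := by
    intro z; rw [heq]
  have hfst : ∀ z, z ∈ levT g (a, x) (b, y) e → z.1.1 = a ∨
      (z.1.1 = b ∧ z = levE g ((b, y), e)) := by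
    intro z hz
    simp only [levT, Finset.mem_insert, Finset.mem_singleton] at hz
    rcases hz with rfl | rfl | rfl
    · exact Or.inl rfl
    · exact Or.inl rfl
    · exact Or.inr ⟨rfl, rfl⟩
  have m1 : levE g' ((a', x'), false) ∈ levT g (a, x) (b, y) e := by
    rw [hm]; simp [levT]
  have m2 : levE g' ((a', x'), true) ∈ levT g (a, x) (b, y) e := by
    rw [hm]; simp [levT]
  have m3 : levE g' ((b', y'), e') ∈ levT g (a, x) (b, y) e := by
    rw [hm]; simp [levT]
  have haa : a' = a := by
    rcases hfst _ m1 with h1 | ⟨h1, h1'⟩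
    · exact h1
    · rcases hfst _ m2 with h2 | ⟨h2, h2'⟩
      · exact h2
      · exfalso
        have h3 := (levE g').injective (h1'.trans h2'.symm)
        simp at h3
  subst haa
  have hx : x' = x ∧ x' + g' = x + g := by
    simp only [levT, Finset.mem_insert, Finset.mem_singleton] at m1 m2
    constructor
    · rcases m1 with h1 | h1 | h1
      · simpa [levE_false] using h1
      · simp [levE_false, levE_true] at h1
      · exfalso
        have := congrArg (fun z => z.1.1) h1
        exact h this
    · rcases m2 with h1 | h1 | h1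
      · simp [levE_false, levE_true] at h1
      · simpa [levE_true] using h1
      · exfalso
        have := congrArg (fun z => z.1.1) h1
        exact h this
  obtain ⟨rfl, hg⟩ := hx
  have hgg : g' = g := add_left_cancel hg
  subst hgg
  have hb : levE g' ((b', y'), e') = levE g' ((b, y), e) := by
    rcases hfst _ m3 with h1 | ⟨-, h1⟩
    · exact absurd h1.symm h'
    · exact h1
  have h3 := (levE g').injective hb
  simp only [Prod.mk.injEq] at h3
  obtain ⟨⟨rfl, rfl⟩, rfl⟩ := h3
  exact ⟨rfl, rfl, rfl, rfl⟩

theorem levT_exists {s : Finset ((A × Bool) × ZMod t)} (h : PS A (ZMod t) s) :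
    ∃ g P Q e, P.1 ≠ Q.1 ∧ s = levT g P Q e := by
  obtain ⟨h3, hi, hn⟩ := h
  -- two points with the same `A`-coordinate
  obtain ⟨a, x, y, hx, hy⟩ : ∃ (a : A) (x y : ZMod t), ((a, false), x) ∈ s ∧
      ((a, true), y) ∈ s := by
    unfold Set.InjOn at hn
    push Not at hn
    obtain ⟨⟨⟨a, c⟩, x⟩, hx, ⟨⟨a', c'⟩, y⟩, hy, haa, hne⟩ := hn
    simp only at haa
    subst haa
    have hcc : c ≠ c' := by
      rintro rfl
      exact hne (hi hx hy rfl)
    rw [Finset.mem_coe] at hx hy
    cases c <;> cases c'
    · exact absurd rfl hcc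
    · exact ⟨a, x, y, hx, hy⟩
    · exact ⟨a, y, x, hy, hx⟩
    · exact absurd rfl hcc
  obtain ⟨⟨⟨b, e⟩, w⟩, hz, hz1, hz2⟩ : ∃ z ∈ s, z ≠ ((a, false), x) ∧ z ≠ ((a, true), y) := by
    by_contra hcon
    push Not at hcon
    have h4 : s ⊆ {((a, false), x), ((a, true), y)} := by
      intro z hz
      by_cases h5 : z = ((a, false), x)
      · rw [h5]; simp
      · rw [hcon z hz h5]; simp
    have h5 := Finset.card_le_card h4
    have h6 : ({((a, false), x), ((a, true), y)} : Finset ((A × Bool) × ZMod t)).card ≤ 2 :=
      Finset.card_le_two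
    omega
  have hba : a ≠ b := by
    rintro rfl
    cases e
    · exact hz1 (hi hz hx rfl)
    · exact hz2 (hi hz hy rfl)
  refine ⟨y - x, (a, x), (b, if e then w - (y - x) else w), e, hba, ?_⟩
  have hQ : levE (y - x) ((b, if e then w - (y - x) else w), e) = ((b, e), w) := by
    cases e <;> simp [levE]
  rw [levT, hQ, levE_false, levE_true, add_sub_cancel]
  symm
  apply Finset.eq_of_subset_of_card_le
  · intro z hz'
    simp only [Finset.mem_insert, Finset.mem_singleton] at hz'
    rcases hz' with rfl | rfl | rfl <;> assumption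
  · rw [h3, Finset.card_eq_three.2 ⟨_, _, _, ?_, ?_, ?_, rfl⟩]
    · simp
    · exact fun h => hz1 h.symm
    · exact fun h => hz2 h.symm

theorem lev_window (g : ZMod t) (r : Perm (A × ZMod t)) (l : A × ZMod t → Bool)
    (P : A × ZMod t) (d : Bool) :
    ({levE g (P, d), (levE g).permCongr (stack r l) (levE g (P, d)),
      (levE g).permCongr (stack r l) ((levE g).permCongr (stack r l) (levE g (P, d)))} :
        Finset ((A × Bool) × ZMod t)) =
      if d = l P then levT g P (r P) (l (r P)) else levT g (r P) P (!l P) := by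
  simp only [Equiv.permCongr_apply, Equiv.symm_apply_apply]
  by_cases hd : d = l P
  · subst hd
    rw [if_pos rfl, stack_first, stack_last, levT]
    cases l P
    · rfl
    · ext z; simp only [Finset.mem_insert, Finset.mem_singleton, Bool.not_true]; tauto
  · rw [if_neg hd]
    have hd' := Tc_bool_ne hd
    subst hd'
    rw [stack_last, stack_first, levT]
    cases l (r P)
    · ext z; simp only [Finset.mem_insert, Finset.mem_singleton, Bool.not_false]; tauto
    · ext z; simp only [Finset.mem_insert, Finset.mem_singleton, Bool.not_true]; tauto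

end

/- PROOF. Apply `lab` with V = A x ZMod t and w a b = if a.1 = b.1 then 0 else 2; get J, r, l. Index set
(ZMod t) x J. For g : ZMod t let E g : (A x ZMod t) x Bool ~ (A x Bool) x ZMod t be
((a, x), false) |-> ((a, false), x), ((a, x), true) |-> ((a, true), x + g).
Permutation of (g, j): (E g).permCongr (stack (r j) (l j)); its type is U.map (2 * .) by IsType.stack.
The windows of stack (stack_first, stack_last) are
  {(y, l y), (y, !l y), (r y, l (r y))} and {(y, !l y), (r y, l (r y)), (r y, !l (r y))},
where (r j y).1 <> y.1, since w y (r j y) = 2.  So (E g)-images satisfy PS.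
COVERING. Let PS s. Two elements of s have the same A-coordinate a and different Bool, say
((a, false), x) and ((a, true), y); the third is ((b, e), z) with b <> a (three elements with the same
A-coordinate cannot have distinct (A x Bool)-coordinates). Put g = y - x, P = (a, x), Q = (b, z) if e = false,
(b, z - g) if e = true. Then s = E g image of {(P, false), (P, true), (Q, e)}. Take the unique (j, dir) of `lab`
for P, Q, e: dir = true: the window of stack at (P, l P); dir = false: the window at (Q, e), e = !l Q.
UNIQUENESS: a window of (g', j') equal to s contains a pair E g' (P', false), E g' (P', true) in one fibre;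
it must be the pair with the same A-coordinate, so P' = (a, x), x + g' = y, g' = g; then as in the second
half of P3.double (Tc26/Double.lean, triples containing a fibre), which can be copied. -/
theorem lev {A : Type} [Fintype A] [DecidableEq A] {t : ℕ} [NeZero t] {U : Multiset ℕ}
    (h : DG (fun a b : A × ZMod t => if a.1 = b.1 then 0 else 2) U) :
    DS (PS A (ZMod t)) (U.map (2 * ·)) := by
  obtain ⟨J, _, r, l, ht, hne, hl⟩ := lab h (fun a b => by split_ifs <;> simp)
  have hne' : ∀ j P, P.1 ≠ (r j P).1 := by
    intro j P h'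
    have := hne j P
    rw [if_pos h'] at this
    omega
  refine ⟨ZMod t × J, inferInstance, fun q => (levE q.1).permCongr (stack (r q.2) (l q.2)),
    fun q => ((ht q.2).stack (l q.2)).conj _, ?_, ?_⟩
  · rintro ⟨g, j⟩ v
    obtain ⟨⟨P, d⟩, rfl⟩ := (levE g).surjective v
    simp only
    rw [lev_window]
    split_ifs
    · exact levT_PS g _ (hne' j P)
    · exact levT_PS g _ (hne' j P).symm
  · intro s hs
    obtain ⟨g, P, Q, e, hPQ, rfl⟩ := levT_exists hs
    obtain ⟨⟨j, dir⟩, hj, hu⟩ := hl P Q (by rw [if_neg hPQ]) e
    simp only at hj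
    refine ⟨((g, j), levE g (if dir then (P, l j P) else (Q, e))), ?_, ?_⟩
    · rcases hj with ⟨rfl, h1, h2⟩ | ⟨rfl, h1, h2⟩
      · simp only [if_true]
        rw [lev_window, if_pos rfl, h1, h2]
      · simp only [Bool.false_eq_true, if_false]
        have h3 : ¬ e = l j Q := by rw [h2]; cases e <;> decide
        rw [lev_window, if_neg h3, h1, h2, Bool.not_not]
    · rintro ⟨⟨g', j'⟩, v⟩ hv
      obtain ⟨⟨R, d⟩, rfl⟩ := (levE g').surjective v
      simp only at hv
      rw [lev_window] at hv
      split_ifs at hv with hd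
      · obtain ⟨rfl, rfl, h1, h2⟩ := levT_inj hPQ (hne' j' R) hv
        have h3 := hu (j', true) (Or.inl ⟨rfl, h1.symm, by rw [h1]; exact h2.symm⟩)
        simp only [Prod.mk.injEq] at h3
        obtain ⟨rfl, rfl⟩ := h3
        simp [hd]
      · obtain ⟨rfl, h1, rfl, h2⟩ := levT_inj hPQ (hne' j' R).symm hv
        have h3 := hu (j', false) (Or.inr ⟨rfl, h1.symm, by rw [h2, Bool.not_not]⟩)
        simp only [Prod.mk.injEq] at h3
        obtain ⟨rfl, rfl⟩ := h3
        have h4 := Tc_bool_ne hd
        simp [h4, h2]

end Pool.Agent.H.Tc55
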