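import Pool.Agent.H.Tc55.Defs

/-! Lifts of the base decomposition (helper55, MP_0d0865_co). -/

set_option autoImplicit false

namespace Pool.Agent.H.Tc55

open Finset Equiv Pool.Agent.H.Tc26

/-- The skew product of a permutation with permutations of the fibres. -/
def topS {V T : Type} (p : Perm V) (φ : V → Perm T) : Perm (V × T) where
  toFun q := (p q.1, φ q.1 q.2)
  invFun q := (p.symm q.1, (φ (p.symm q.1)).symm q.2)
  left_inv := by rintro ⟨a, b⟩; simp
  right_inv := by rintro ⟨a, b⟩; simp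

theorem topS_apply {V T : Type} (p : Perm V) (φ : V → Perm T) (a : V) (b : T) :
    topS p φ (a, b) = (p a, φ a b) := rfl

/-- The numbers `α, β, -α, -β, α, …`. -/
def topSel {T : Type} [AddCommGroup T] (k : ℕ) (α β : T) : T :=
  if k % 4 = 0 then α else if k % 4 = 1 then β else if k % 4 = 2 then -α else -β

/-- The sums of the first `k` of the numbers `α, β, -α, -β, α, …`. -/
def topF {T : Type} [AddCommGroup T] (k : ℕ) (α β : T) : T :=
  if k % 4 = 0 then 0 else if k % 4 = 1 then α else if k % 4 = 2 then α + β else β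

theorem topF_succ {T : Type} [AddCommGroup T] (k : ℕ) (α β : T) :
    topF (k + 1) α β = topF k α β + topSel k α β := by
  have h : k % 4 = 0 ∨ k % 4 = 1 ∨ k % 4 = 2 ∨ k % 4 = 3 := by omega
  rcases h with h | h | h | h
  · have h' : (k + 1) % 4 = 1 := by omega
    simp [topF, topSel, h, h']
  · have h' : (k + 1) % 4 = 2 := by omega
    simp [topF, topSel, h, h']
  · have h' : (k + 1) % 4 = 3 := by omega
    simp [topF, topSel, h, h']
  · have h' : (k + 1) % 4 = 0 := by omega
    simp [topF, topSel, h, h']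

theorem topSel_mod {T : Type} [AddCommGroup T] {k k' : ℕ} (h : k % 4 = k' % 4) (α β : T) :
    topSel k α β = topSel k' α β := by
  unfold topSel
  rw [h]

/-- Two consecutive values determine `α` and `β`. -/
theorem topSel_ex {T : Type} [AddCommGroup T] (k : ℕ) (u v : T) :
    ∃! q : T × T, topSel k q.1 q.2 = u ∧ topSel (k + 1) q.1 q.2 = v := by
  have h : k % 4 = 0 ∨ k % 4 = 1 ∨ k % 4 = 2 ∨ k % 4 = 3 := by omega
  rcases h with h | h | h | h
  · have h' : (k + 1) % 4 = 1 := by omega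
    refine ⟨(u, v), by simp [topSel, h, h'], ?_⟩
    rintro ⟨x, y⟩ ⟨h1, h2⟩
    simp only [topSel, h, h'] at h1 h2
    simp only [if_true, if_false, one_ne_zero] at h1 h2
    rw [h1, h2]
  · have h' : (k + 1) % 4 = 2 := by omega
    refine ⟨(-v, u), by simp [topSel, h, h'], ?_⟩
    rintro ⟨x, y⟩ ⟨h1, h2⟩
    simp [topSel, h, h'] at h1 h2
    rw [← h1, ← h2, neg_neg]
  · have h' : (k + 1) % 4 = 3 := by omega
    refine ⟨(-u, -v), by simp [topSel, h, h'], ?_⟩
    rintro ⟨x, y⟩ ⟨h1, h2⟩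
    simp [topSel, h, h'] at h1 h2
    rw [← h1, ← h2, neg_neg, neg_neg]
  · have h' : (k + 1) % 4 = 0 := by omega
    refine ⟨(v, -u), by simp [topSel, h, h'], ?_⟩
    rintro ⟨x, y⟩ ⟨h1, h2⟩
    simp [topSel, h, h'] at h1 h2
    rw [← h1, ← h2, neg_neg]

/-- There is a permutation of given type. -/
theorem top_theta {t : ℕ} [NeZero t] (M : Multiset ℕ) (hM : M.sum = t)
    (hpos : ∀ x ∈ M, 0 < x) : ∃ θ : Perm (ZMod t), IsType θ M := by
  obtain ⟨k, l, hl⟩ := Tc_exists_fam M
  have hl0 : ∀ i, 0 < l i := fun i => hpos _ (by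
    rw [← hl]; exact Multiset.mem_map_of_mem _ (Finset.mem_univ i))
  have : ∀ i, NeZero (l i) := fun i => ⟨(hl0 i).ne'⟩
  have hc : Fintype.card (Σ i : Fin k, ZMod (l i)) = Fintype.card (ZMod t) := by
    rw [Fintype.card_sigma, ZMod.card, ← hM, ← hl]
    simp only [ZMod.card]
    rfl
  let E := Fintype.equivOfCardEq hc
  refine ⟨E.permCongr (Equiv.sigmaCongrRight fun i => Equiv.addRight 1), Fin k, inferInstance, l,
    E, hl, ?_⟩
  intro i x
  simp [Equiv.permCongr_apply]

/-- The permutations of the fibres. -/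
def topP {V : Type} {c w t : ℕ} (e : Fin w × ZMod c ≃ V) (θ : Fin w → Perm (ZMod t))
    (α β : ZMod t) (x : V) : Perm (ZMod t) :=
  (Equiv.addRight (topSel (e.symm x).2.val α β)).trans
    (if (e.symm x).2 = -1 then θ (e.symm x).1 else Equiv.refl _)

theorem topP_apply {V : Type} {c w t : ℕ} (e : Fin w × ZMod c ≃ V) (θ : Fin w → Perm (ZMod t))
    (α β : ZMod t) (x : V) (s : ZMod t) :
    topP e θ α β x s = (if (e.symm x).2 = -1 then θ (e.symm x).1 else Equiv.refl _)
      (s + topSel (e.symm x).2.val α β) := rfl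

theorem topP_step {V : Type} {c w t : ℕ} (e : Fin w × ZMod c ≃ V) (θ : Fin w → Perm (ZMod t))
    (α β : ZMod t) (g : Fin w) {k : ℕ} (hk : k + 1 < c) (s : ZMod t) :
    topP e θ α β (e (g, (k : ZMod c))) s = s + topSel k α β := by
  have hv : (k : ZMod c).val = k := by
    rw [ZMod.val_natCast, Nat.mod_eq_of_lt (by omega)]
  have hne : (k : ZMod c) ≠ -1 := by
    intro h
    have h1 : ((k + 1 : ℕ) : ZMod c) = 0 := by
      rw [Nat.cast_add, Nat.cast_one, h, neg_add_cancel]
    rw [ZMod.natCast_eq_zero_iff] at h1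
    have := Nat.le_of_dvd (by omega) h1
    omega
  rw [topP_apply, Equiv.symm_apply_apply]
  simp only [if_neg hne, hv]
  rfl

theorem topP_last {V : Type} {c w t : ℕ} (e : Fin w × ZMod c ≃ V) (θ : Fin w → Perm (ZMod t))
    (α β : ZMod t) (g : Fin w) {k : ℕ} (hk : k + 1 = c) (s : ZMod t) :
    topP e θ α β (e (g, (k : ZMod c))) s = θ g (s + topSel k α β) := by
  have hv : (k : ZMod c).val = k := by
    rw [ZMod.val_natCast, Nat.mod_eq_of_lt (by omega)]
  have he : (k : ZMod c) = -1 := by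
    rw [eq_neg_iff_add_eq_zero, ← Nat.cast_one, ← Nat.cast_add, hk, ZMod.natCast_self]
  have he' : (((g, (k : ZMod c)) : Fin w × ZMod c)).2 = -1 := he
  rw [topP_apply, Equiv.symm_apply_apply, if_pos he']
  simp only [hv]

theorem top_path {V : Type} {c w t : ℕ} (p : Perm V) (e : Fin w × ZMod c ≃ V)
    (he : ∀ i y, p (e (i, y)) = e (i, y + 1)) (θ : Fin w → Perm (ZMod t))
    (α β : ZMod t) (g : Fin w) (s : ZMod t) (k : ℕ) (hk : k < c) :
    (topS p (topP e θ α β) ^ k) (e (g, 0), s) = (e (g, (k : ZMod c)), s + topF k α β) := by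
  induction k with
  | zero => simp [topF]
  | succ k ih =>
    rw [pow_succ', Perm.mul_apply, ih (by omega), topS_apply, he, topP_step e θ α β g hk,
      topF_succ, add_assoc, Nat.cast_add, Nat.cast_one]

theorem top_round {V : Type} {c w t : ℕ} (h4 : 4 ∣ c) (hc : 0 < c) (p : Perm V)
    (e : Fin w × ZMod c ≃ V) (he : ∀ i y, p (e (i, y)) = e (i, y + 1))
    (θ : Fin w → Perm (ZMod t)) (α β : ZMod t) (g : Fin w) (s : ZMod t) :
    (topS p (topP e θ α β) ^ c) (e (g, 0), s) = (e (g, 0), θ g s) := by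
  obtain ⟨k, hk⟩ : ∃ k, k + 1 = c := ⟨c - 1, by omega⟩
  have h3 : k % 4 = 3 := by omega
  have e1 : (topS p (topP e θ α β) ^ c) (e (g, 0), s) =
      (topS p (topP e θ α β) ^ (k + 1)) (e (g, 0), s) := by rw [hk]
  rw [e1, pow_succ', Perm.mul_apply, top_path p e he θ α β g s k (by omega), topS_apply, he,
    topP_last e θ α β g hk]
  have e2 : (k : ZMod c) + 1 = 0 := by
    rw [← Nat.cast_one, ← Nat.cast_add, hk, ZMod.natCast_self]
  have e3 : s + topF k α β + topSel k α β = s := by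
    simp [topF, topSel, h3]
  rw [e2, e3]

theorem top_rounds {V : Type} {c w t : ℕ} (h4 : 4 ∣ c) (hc : 0 < c) (p : Perm V)
    (e : Fin w × ZMod c ≃ V) (he : ∀ i y, p (e (i, y)) = e (i, y + 1))
    (θ : Fin w → Perm (ZMod t)) (α β : ZMod t) (g : Fin w) (s : ZMod t) (m : ℕ) :
    (topS p (topP e θ α β) ^ (c * m)) (e (g, 0), s) = (e (g, 0), (θ g ^ m) s) := by
  induction m with
  | zero => simp
  | succ m ih =>
    rw [Nat.mul_succ, add_comm, pow_add, Perm.mul_apply, ih, top_round h4 hc p e he, pow_succ',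
      Perm.mul_apply]

theorem top_type {V : Type} [Fintype V] {c w t : ℕ} [NeZero t] (h4 : 4 ∣ c) (hc : 0 < c)
    (p : Perm V) (e : Fin w × ZMod c ≃ V) (he : ∀ i y, p (e (i, y)) = e (i, y + 1))
    (θ : Fin w → Perm (ZMod t)) (α β : ZMod t) (lam : Fin w → Multiset ℕ)
    (hθ : ∀ g, IsType (θ g) (lam g)) :
    IsType (topS p (topP e θ α β)) (∑ g, (lam g).map (c * ·)) := by
  have hc' : NeZero c := ⟨hc.ne'⟩
  choose I hI l E hM hE using hθ
  have hl : ∀ g i, 0 < l g i := fun g i => Tc_pos_model (E g) i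
  have hl' : ∀ g i, NeZero (l g i) := fun g i => ⟨(hl g i).ne'⟩
  have hfam : (∑ g, (lam g).map (c * ·)) = fam (fun q : Σ g, I g => c * l q.1 q.2) := by
    rw [fam_sigma (fun g i => c * l g i)]
    refine Finset.sum_congr rfl fun g _ => ?_
    rw [fam_mul, hM]
  rw [hfam]
  refine IsType.of_reps _ _ (fun q => Nat.mul_pos hc (hl q.1 q.2))
    (fun q => (e (q.1, 0), E q.1 ⟨q.2, 0⟩)) ?_ ?_ ?_
  · rintro ⟨g, i⟩
    simp only
    rw [top_rounds h4 hc p e he, Tc_pow_model (E g) (hE g)]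
    simp
  · rintro ⟨x, s⟩
    obtain ⟨⟨g, y⟩, rfl⟩ := e.surjective x
    obtain ⟨⟨i, z⟩, hz⟩ := (E g).surjective (s - topF y.val α β)
    have hz' : (θ g ^ z.val) (E g ⟨i, 0⟩) = s - topF y.val α β := by
      rw [Tc_pow_model (E g) (hE g), ZMod.natCast_zmod_val, hz]
    refine ⟨⟨g, i⟩, y.val + c * z.val, ?_⟩
    simp only
    rw [pow_add, Perm.mul_apply, top_rounds h4 hc p e he, hz',
      top_path p e he θ α β g _ y.val (ZMod.val_lt y), ZMod.natCast_zmod_val, sub_add_cancel]
  · rw [Fintype.sum_sigma]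
    have h1 : ∀ g, ∑ i, c * l g i = c * t := by
      intro g
      rw [← Finset.mul_sum, Tc_card_model (E g), ZMod.card]
    simp only [h1]
    rw [Finset.sum_const, Finset.card_univ, Fintype.card_fin, Fintype.card_prod, ZMod.card,
      ← Fintype.card_congr e, Fintype.card_prod, ZMod.card, Fintype.card_fin, smul_eq_mul,
      mul_assoc]

theorem top_HS {A T : Type} [DecidableEq A] [DecidableEq T] {x y z : A} (h1 : x ≠ y)
    (h2 : x ≠ z) (h3 : y ≠ z) (a b d : T) : HS A T {(x, a), (y, b), (z, d)} := by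
  refine ⟨Finset.card_eq_three.2 ⟨(x, a), (y, b), (z, d), ?_, ?_, ?_, rfl⟩, ?_⟩
  · intro h; exact h1 (congrArg Prod.fst h)
  · intro h; exact h2 (congrArg Prod.fst h)
  · intro h; exact h3 (congrArg Prod.fst h)
  · rintro p hp q hq hpq
    simp only [Finset.coe_insert, Finset.coe_singleton, Set.mem_insert_iff,
      Set.mem_singleton_iff] at hp hq
    rcases hp with rfl | rfl | rfl <;> rcases hq with rfl | rfl | rfl
    · rfl
    · exact absurd hpq h1
    · exact absurd hpq h2
    · exact absurd hpq h1.symm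
    · rfl
    · exact absurd hpq h3
    · exact absurd hpq h2.symm
    · exact absurd hpq h3.symm
    · rfl

theorem topP_iff {V : Type} {c w t : ℕ} (e : Fin w × ZMod c ≃ V) (θ : Fin w → Perm (ZMod t))
    (α β : ZMod t) (x : V) (a b : ZMod t) :
    topP e θ α β x a = b ↔ topSel (e.symm x).2.val α β =
      (if (e.symm x).2 = -1 then θ (e.symm x).1 else Equiv.refl _).symm b - a := by
  rw [topP_apply, Equiv.apply_eq_iff_eq_symm_apply, eq_sub_iff_add_eq, add_comm]

theorem top_mod {V : Type} {c w : ℕ} (h4 : 4 ∣ c) (hc : 0 < c) (p : Perm V)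
    (e : Fin w × ZMod c ≃ V) (he : ∀ i y, p (e (i, y)) = e (i, y + 1)) (x : V) :
    (e.symm (p x)).2.val % 4 = ((e.symm x).2.val + 1) % 4 := by
  have hc' : NeZero c := ⟨hc.ne'⟩
  obtain ⟨⟨g, y⟩, rfl⟩ := e.surjective x
  rw [he, Equiv.symm_apply_apply, Equiv.symm_apply_apply]
  simp only
  have h1 : y + 1 = ((y.val + 1 : ℕ) : ZMod c) := by
    rw [Nat.cast_add, ZMod.natCast_zmod_val, Nat.cast_one]
  rw [h1, ZMod.val_natCast, Nat.mod_mod_of_dvd _ h4]

/-- Lifts of a decomposition of the triples of `V` to the triples of `V × ZMod t` with distinct first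
coordinates. -/
theorem top {V : Type} [Fintype V] [DecidableEq V] {c w t : ℕ} (h4 : 4 ∣ c) (hc : 0 < c)
    [NeZero t] (h : P3 V (Multiset.replicate w c)) (lam : Fin w → Multiset ℕ)
    (hl : ∀ g, (lam g).sum = t) (hpos : ∀ g, ∀ x ∈ lam g, 0 < x) :
    DS (HS V (ZMod t)) (∑ g, (lam g).map (c * ·)) := by
  obtain ⟨J, _, r, hr, hc3⟩ := h
  have hc4 : 4 ≤ c := Nat.le_of_dvd hc h4
  have hfam : fam (fun _ : Fin w => c) = Multiset.replicate w c := by
    simp [fam]
  choose e0 he0 using fun j => (hr j).exists_equiv (fun _ : Fin w => c) hfam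
  let e : J → (Fin w × ZMod c ≃ V) := fun j =>
    (Equiv.sigmaEquivProd (Fin w) (ZMod c)).symm.trans (e0 j)
  have he : ∀ j i y, r j (e j (i, y)) = e j (i, y + 1) := fun j i y => he0 j i y
  choose θ hθ using fun g => top_theta (lam g) (hl g) (hpos g)
  have hne : ∀ j x, r j x ≠ x ∧ r j (r j x) ≠ x := by
    intro j x
    refine (hr j).ne ?_ x
    intro m hm
    rw [Multiset.eq_of_mem_replicate hm]
    omega
  refine ⟨J × (ZMod t × ZMod t), inferInstance,
    fun q => topS (r q.1) (topP (e q.1) θ q.2.1 q.2.2),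
    fun q => top_type h4 hc _ _ (he q.1) θ _ _ lam hθ, ?_, ?_⟩
  · rintro ⟨j, α, β⟩ ⟨x, s⟩
    simp only [topS_apply]
    obtain ⟨hn1, hn2⟩ := hne j x
    obtain ⟨hn3, -⟩ := hne j (r j x)
    exact top_HS hn1.symm hn2.symm hn3.symm _ _ _
  · intro s hs
    obtain ⟨hcard, hinj⟩ := hs
    have hT : ∀ p ∈ s, ∀ q ∈ s, p.1 = q.1 → p = q := fun p hp q hq hpq => hinj hp hq hpq
    have him : (s.image Prod.fst).card = 3 := by
      rw [Finset.card_image_of_injOn hinj, hcard]
    obtain ⟨⟨j, x⟩, hx, huniq⟩ := hc3 _ him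
    simp only at hx
    obtain ⟨hn1, hn2⟩ := hne j x
    obtain ⟨hn3, -⟩ := hne j (r j x)
    have hmem : ∀ y, y ∈ s.image Prod.fst → ∃ b, (y, b) ∈ s := by
      intro y hy
      obtain ⟨⟨y', b⟩, hb, rfl⟩ := Finset.mem_image.1 hy
      exact ⟨b, hb⟩
    obtain ⟨a, ha⟩ := hmem x (by rw [hx]; simp)
    obtain ⟨b, hb⟩ := hmem (r j x) (by rw [hx]; simp)
    obtain ⟨d, hd⟩ := hmem (r j (r j x)) (by rw [hx]; simp)
    have hsE : s = {(x, a), (r j x, b), (r j (r j x), d)} := by
      symm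
      apply Finset.eq_of_subset_of_card_le
      · intro p hp
        simp only [Finset.mem_insert, Finset.mem_singleton] at hp
        rcases hp with rfl | rfl | rfl <;> assumption
      · rw [hcard, (top_HS hn1.symm hn2.symm hn3.symm a b d).1]
    obtain ⟨⟨α, β⟩, ⟨hα, hβ⟩, huab⟩ := topSel_ex ((e j).symm x).2.val
      ((if ((e j).symm x).2 = -1 then θ ((e j).symm x).1 else Equiv.refl _).symm b - a)
      ((if ((e j).symm (r j x)).2 = -1 then θ ((e j).symm (r j x)).1 else Equiv.refl _).symm d - b)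
    have hmod := top_mod h4 hc (r j) (e j) (he j) x
    have hP1 : topP (e j) θ α β x a = b := (topP_iff _ _ _ _ _ _ _).2 hα
    have hP2 : topP (e j) θ α β (r j x) b = d := by
      rw [topP_iff, topSel_mod hmod]
      exact hβ
    refine ⟨((j, (α, β)), (x, a)), ?_, ?_⟩
    · simp only [topS_apply, hP1, hP2]
      exact hsE
    · rintro ⟨⟨j', α', β'⟩, ⟨y, a'⟩⟩ hq
      simp only [topS_apply] at hq
      have him' : s.image Prod.fst = {y, r j' y, r j' (r j' y)} := by
        rw [hq]; simp [Finset.image_insert]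
      have h1 := huniq (j', y) him'
      simp only [Prod.mk.injEq] at h1
      obtain ⟨rfl, rfl⟩ := h1
      have ha' : a' = a := by
        have h2 : (y, a') ∈ s := by rw [hq]; simp
        exact congrArg Prod.snd (hT _ h2 _ ha rfl)
      subst ha'
      have hb' : topP (e j') θ α' β' y a' = b := by
        have h2 : (r j' y, topP (e j') θ α' β' y a') ∈ s := by rw [hq]; simp
        exact congrArg Prod.snd (hT _ h2 _ hb rfl)
      rw [hb'] at hq
      have hd' : topP (e j') θ α' β' (r j' y) b = d := by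
        have h2 : (r j' (r j' y), topP (e j') θ α' β' (r j' y) b) ∈ s := by rw [hq]; simp
        exact congrArg Prod.snd (hT _ h2 _ hd rfl)
      have h3 := huab (α', β') ⟨(topP_iff _ _ _ _ _ _ _).1 hb', by
        rw [topP_iff, topSel_mod hmod] at hd'
        exact hd'⟩
      simp only [Prod.mk.injEq] at h3
      rw [h3.1, h3.2]

end Pool.Agent.H.Tc55
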