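import Pool.Agent.H.Tc55.One
import Pool.Agent.H.Tc55.Lev
import Pool.Agent.H.Tc55.Top

/-! The recursion over the levels (helper55, MP_0d0865_co). -/

set_option autoImplicit false

namespace Pool.Agent.H.Tc55

open Finset Equiv Pool.Agent.H.Tc26

theorem Fin_hs_map {A T B T' : Type} [DecidableEq A] [DecidableEq T] [DecidableEq B]
    [DecidableEq T'] (e : A × T ≃ B × T') (f : B → A) (he : ∀ x, (e.symm x).1 = f x.1)
    (s : Finset (B × T')) : HS A T (s.map e.symm.toEmbedding) ↔
      s.card = 3 ∧ Set.InjOn (fun x : B × T' => f x.1) (s : Set (B × T')) := by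
  unfold HS
  rw [Finset.card_map]
  refine and_congr_right fun _ => ?_
  constructor
  · intro h x hx y hy hxy
    have h1 := h (Finset.mem_coe.2 (Finset.mem_map_of_mem e.symm.toEmbedding hx))
      (Finset.mem_coe.2 (Finset.mem_map_of_mem e.symm.toEmbedding hy))
    simp only [Equiv.coe_toEmbedding, he] at h1
    exact e.symm.injective (h1 hxy)
  · intro h x hx y hy hxy
    rw [Finset.mem_coe, Finset.mem_map] at hx hy
    obtain ⟨x', hx', rfl⟩ := hx
    obtain ⟨y', hy', rfl⟩ := hy
    simp only [Equiv.coe_toEmbedding, he] at hxy ⊢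
    rw [h hx' hy' hxy]

theorem Fin_step {A : Type} [DecidableEq A] {T T' : Type} [DecidableEq T]
    [DecidableEq T'] {M : Multiset ℕ} (e : T ≃ Bool × T') (h : DS (HS A T) M)
    (h' : DS (PS A T') M) : DS (HS (A × Bool) T') M := by
  let E : A × T ≃ (A × Bool) × T' :=
    ((Equiv.refl A).prodCongr e).trans (Equiv.prodAssoc A Bool T').symm
  have hE : ∀ x, (E.symm x).1 = (x.1).1 := fun x => rfl
  have h1 := h.congr E
  refine (h1.union h' ?_).ext ?_
  · intro s hs hs'
    rw [Fin_hs_map E Prod.fst hE] at hs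
    exact hs'.2.2 hs.2
  · intro s
    rw [Fin_hs_map E Prod.fst hE]
    constructor
    · intro hs
      by_cases h3 : Set.InjOn (fun x : (A × Bool) × T' => x.1.1) (s : Set ((A × Bool) × T'))
      · exact Or.inl ⟨hs.1, h3⟩
      · exact Or.inr ⟨hs.1, hs.2, h3⟩
    · rintro (hs | hs)
      · refine ⟨hs.1, fun x hx y hy hxy => hs.2 hx hy ?_⟩
        simp only [hxy]
      · exact ⟨hs.1, hs.2.1⟩

theorem Fin_dg {A : Type} [Fintype A] [DecidableEq A] (h4 : 4 ∣ Fintype.card A)
    (h0 : 0 < Fintype.card A) {U : Multiset ℕ} (hU : Bip U) (b : ℕ)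
    (hs : U.sum = Fintype.card A * 2 ^ b) :
    DG (fun x y : A × ZMod (2 ^ b) => if x.1 = y.1 then 0 else 2) U := by
  have : NeZero (2 ^ b) := ⟨by positivity⟩
  cases b with
  | zero =>
    have h1 := one h4 h0 hU (by rw [hs]; ring)
    let u : ZMod (2 ^ 0) ≃ PUnit.{1} := Fintype.equivOfCardEq (by rw [ZMod.card]; simp)
    let e : A ≃ A × ZMod (2 ^ 0) :=
      (Equiv.prodPUnit A).symm.trans ((Equiv.refl A).prodCongr u.symm)
    refine (h1.congr e).ext ?_
    intro x y
    rfl
  | succ d =>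
    exact multi ((by norm_num : 2 ∣ 4).trans h4) h0 d (ZMod.card _) hU hs

theorem climb : ∀ (b : ℕ) {A : Type} [Fintype A] [DecidableEq A] (_ : 4 ∣ Fintype.card A)
    (_ : 0 < Fintype.card A) {U : Multiset ℕ} (_ : Bip U)
    (_ : U.sum * 2 = Fintype.card A * 2 ^ b)
    (_ : DS (HS A (ZMod (2 ^ b))) (U.map (2 * ·))) (B : Type) [Fintype B] [DecidableEq B],
      Fintype.card B = Fintype.card A * 2 ^ b → P3 B (U.map (2 * ·)) := by
  intro b
  induction b with
  | zero =>
    intro A _ _ h4 h0 U hU hs h B _ _ hB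
    have : NeZero (2 ^ 0) := ⟨by positivity⟩
    have hc : Fintype.card (A × ZMod (2 ^ 0)) = Fintype.card B := by
      rw [Fintype.card_prod, ZMod.card, hB]
    obtain ⟨J, _, r, h1, h2, h3⟩ := (h.congr (Fintype.equivOfCardEq hc))
    refine ⟨J, inferInstance, r, h1, fun s hs => h3 s ?_⟩
    refine ⟨by rw [Finset.card_map]; exact hs, ?_⟩
    rintro ⟨x, u⟩ - ⟨y, v⟩ - hxy
    have huv : u = v := by
      have : Subsingleton (ZMod (2 ^ 0)) := by
        rw [← Fintype.card_le_one_iff_subsingleton, ZMod.card]; simp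
      exact Subsingleton.elim _ _
    simp only at hxy
    rw [hxy, huv]
  | succ b ih =>
    intro A _ _ h4 h0 U hU hs h B _ _ hB
    have : NeZero (2 ^ b) := ⟨by positivity⟩
    have : NeZero (2 ^ (b + 1)) := ⟨by positivity⟩
    have hsum : U.sum = Fintype.card A * 2 ^ b := by
      have : U.sum * 2 = Fintype.card A * 2 ^ b * 2 := by rw [hs]; ring
      omega
    have h1 := lev (Fin_dg h4 h0 hU b hsum)
    have hc : Fintype.card (ZMod (2 ^ (b + 1))) = Fintype.card (Bool × ZMod (2 ^ b)) := by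
      rw [Fintype.card_prod, ZMod.card, ZMod.card, Fintype.card_bool]; ring
    have h2 := Fin_step (Fintype.equivOfCardEq hc) h h1
    have hc2 : Fintype.card (A × Bool) = Fintype.card A * 2 := by simp
    exact ih (hc2 ▸ Dvd.dvd.mul_right h4 2) (by rw [hc2]; omega) hU
      (by rw [hs, hc2]; ring) h2 B (by rw [hB, hc2]; ring)

end Pool.Agent.H.Tc55
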