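import Pool.Agent.H.Tc55.Defs

/-! Haggkvist's lemma: the blow-up of a cycle (helper55, MP_0d0865_co). -/

set_option autoImplicit false

namespace Pool.Agent.H.Tc55

open Finset Equiv Pool.Agent.H.Tc26


/-- Flip the second coordinate where `b` holds. -/
def hagFlip {P : Type} (b : P → Bool) : Perm (P × Bool) where
  toFun x := (x.1, xor x.2 (b x.1))
  invFun x := (x.1, xor x.2 (b x.1))
  left_inv := by rintro ⟨p, e⟩; simp
  right_inv := by rintro ⟨p, e⟩; simp

/-- Right on level false, left on level true. -/
def hagMove (L : ℕ) : Perm (ZMod L × Bool) where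
  toFun x := if x.2 then (x.1 - 1, true) else (x.1 + 1, false)
  invFun x := if x.2 then (x.1 + 1, true) else (x.1 - 1, false)
  left_inv := by rintro ⟨p, e⟩; cases e <;> simp
  right_inv := by rintro ⟨p, e⟩; cases e <;> simp

/-- The first permutation of Haggkvist's lemma. -/
def hagA {L : ℕ} (b : ZMod L → Bool) : Perm (ZMod L × Bool) := (hagFlip b).trans (hagMove L)

theorem hagA_apply {L : ℕ} (b : ZMod L → Bool) (p : ZMod L) (e : Bool) :
    hagA b (p, e) = if xor e (b p) then (p - 1, true) else (p + 1, false) := rfl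

theorem hagA_ind {L : ℕ} (b : ZMod L → Bool) (p p' : ZMod L) (x y : Bool) :
    (if hagA b (p, x) = (p', y) then 1 else 0 : ℕ) =
      (if p' = p + 1 then (if x = b p ∧ y = false then 1 else 0) else 0) +
      (if p = p' + 1 then (if x = (!b p) ∧ y = true then 1 else 0) else 0) := by
  rw [hagA_apply]
  have e1 : (p - 1 = p') ↔ (p = p' + 1) := sub_eq_iff_eq_add
  have e2 : (p + 1 = p') ↔ (p' = p + 1) := eq_comm
  cases x <;> cases y <;> cases hb : b p <;> simp [Prod.ext_iff, e1, e2]

theorem hagB_apply {L : ℕ} (b g : ZMod L → Bool) (p p' : ZMod L) (x y : Bool) :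
    ((hagFlip g).permCongr (hagA b) (p, x) = (p', y)) ↔
      hagA b (p, xor x (g p)) = (p', xor y (g p')) := by
  rw [Equiv.permCongr_apply, ← Equiv.eq_symm_apply]
  rfl

theorem hag_weights {L : ℕ} (b g : ZMod L → Bool) (h1 : ∀ p, b p = true → b (p + 1) = false)
    (h2 : ∀ p, b p = true → g p = true)
    (h3 : ∀ p, b p = false → b (p + 1) = false → g (p + 1) = !g p) (u v : ZMod L × Bool) :
    wt (Equiv.addRight (1 : ZMod L)) u.1 v.1 =
      wt (hagA b) u v + wt ((hagFlip g).permCongr (hagA b)) u v := by
  obtain ⟨p, x⟩ := u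
  obtain ⟨p', y⟩ := v
  have c1 : p' = p + 1 → ((if x = b p ∧ y = false then 1 else 0) +
      (if y = (!b p') ∧ x = true then 1 else 0)) +
      ((if xor x (g p) = b p ∧ xor y (g p') = false then 1 else 0) +
      (if xor y (g p') = (!b p') ∧ xor x (g p) = true then 1 else 0)) = 1 := by
    rintro rfl
    have k1 := h1 p
    have k2 := h2 p
    have k3 := h3 p
    have k4 := h2 (p + 1)
    revert k1 k2 k3 k4
    generalize b p = b0; generalize b (p + 1) = b1; generalize g p = g0
    generalize g (p + 1) = g1
    clear * -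
    revert b0 b1 g0 g1 x y; decide
  have c2 : p = p' + 1 → ((if x = (!b p) ∧ y = true then 1 else 0) +
      (if y = b p' ∧ x = false then 1 else 0)) +
      ((if xor x (g p) = (!b p) ∧ xor y (g p') = true then 1 else 0) +
      (if xor y (g p') = b p' ∧ xor x (g p) = false then 1 else 0)) = 1 := by
    rintro rfl
    have k1 := h1 p'
    have k2 := h2 p'
    have k3 := h3 p'
    have k4 := h2 (p' + 1)
    revert k1 k2 k3 k4
    generalize b p' = b0; generalize b (p' + 1) = b1; generalize g p' = g0
    generalize g (p' + 1) = g1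
    clear * -
    revert b0 b1 g0 g1 x y; decide
  have hl : wt (Equiv.addRight (1 : ZMod L)) p p' =
      (if p' = p + 1 then 1 else 0) + (if p = p' + 1 then 1 else 0) := by
    simp only [wt, Equiv.coe_addRight, eq_comm]
  simp only [hl]
  simp only [wt, hagB_apply, hagA_ind]
  by_cases k1 : p' = p + 1
  · by_cases k2 : p = p' + 1
    · have := c1 k1
      have := c2 k2
      rw [if_pos k1, if_pos k1, if_pos k1, if_pos k1, if_pos k1, if_pos k2, if_pos k2, if_pos k2,
        if_pos k2, if_pos k2]
      omega
    · have := c1 k1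
      rw [if_pos k1, if_pos k1, if_pos k1, if_pos k1, if_pos k1, if_neg k2, if_neg k2, if_neg k2,
        if_neg k2, if_neg k2]
      omega
  · by_cases k2 : p = p' + 1
    · have := c2 k2
      rw [if_neg k1, if_neg k1, if_neg k1, if_neg k1, if_neg k1, if_pos k2, if_pos k2, if_pos k2,
        if_pos k2, if_pos k2]
      omega
    · rw [if_neg k1, if_neg k1, if_neg k1, if_neg k1, if_neg k1, if_neg k2, if_neg k2, if_neg k2,
        if_neg k2, if_neg k2]

theorem hagA_type {L r : ℕ} (q : ℕ → ℕ) (hq : ∀ i < r, 2 ≤ q i) (hr : 0 < r)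
    (hL : ∑ i ∈ Finset.range r, q i = L) : ∃ b : ZMod L → Bool, b 0 = true ∧
      (∀ p, b p = true → b (p + 1) = false) ∧
      IsType (hagA b) (fam (fun i : Fin r => 2 * q i)) := by
  classical
  let B : ℕ → ℕ := fun n => ∑ j ∈ Finset.range n, q j
  have hB0 : B 0 = 0 := by simp [B]
  have hBs : ∀ n, B (n + 1) = B n + q n := fun n => Finset.sum_range_succ _ _
  have hBr : B r = L := hL
  have hmono : Monotone B := monotone_nat_of_le_succ fun n => by rw [hBs]; omega
  have hLpos : 0 < L := by
    have h1 := hq 0 hr
    have h2 := hmono (show 1 ≤ r from hr)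
    have h3 := hBs 0
    rw [zero_add] at h3
    omega
  have : NeZero L := ⟨hLpos.ne'⟩
  have hlt : ∀ i < r, ∀ x < q i, B i + x < L := by
    intro i hi x hx
    have h1 := hmono (show i + 1 ≤ r from hi)
    rw [hBs] at h1
    omega
  have hval : ∀ i < r, ∀ x < q i, ((B i + x : ℕ) : ZMod L).val = B i + x := by
    intro i hi x hx
    rw [ZMod.val_natCast, Nat.mod_eq_of_lt (hlt i hi x hx)]
  let b : ZMod L → Bool := fun p => decide (∃ i < r, p.val = B i)
  have hin : ∀ i < r, ∀ x, 0 < x → x < q i → b ((B i + x : ℕ) : ZMod L) = false := by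
    intro i hi x h0 hx
    apply decide_eq_false
    rintro ⟨j, hj, h⟩
    rw [hval i hi x hx] at h
    rcases Nat.lt_or_ge i j with h1 | h1
    · have h2 := hmono (show i + 1 ≤ j from h1)
      rw [hBs] at h2
      omega
    · have h2 := hmono h1
      omega
  have hbr : ∀ i ≤ r, b ((B i : ℕ) : ZMod L) = true := by
    intro i hi
    apply decide_eq_true
    rcases Nat.lt_or_ge i r with h1 | h1
    · refine ⟨i, h1, ?_⟩
      have h2 := hval i h1 0 (by have := hq i h1; omega)
      simpa using h2
    · have h2 : i = r := le_antisymm hi h1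
      refine ⟨0, hr, ?_⟩
      rw [h2, hBr, hB0]
      simp
  have hcov : ∀ p : ZMod L, ∃ i < r, ∃ x < q i, p = ((B i + x : ℕ) : ZMod L) := by
    intro p
    have h1 : ∃ n, p.val < B n := ⟨r, by rw [hBr]; exact ZMod.val_lt p⟩
    have h2 := Nat.find_spec h1
    have h3 : Nat.find h1 ≠ 0 := by
      intro h
      rw [h, hB0] at h2
      exact absurd h2 (Nat.not_lt_zero _)
    obtain ⟨i, hi⟩ := Nat.exists_eq_succ_of_ne_zero h3
    have h4 : ¬ p.val < B i := Nat.find_min h1 (by omega)
    rw [hi, Nat.succ_eq_add_one, hBs] at h2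
    have h5 : i < r := by
      by_contra h6
      have h7 := hmono (not_lt.1 h6)
      have := ZMod.val_lt p
      omega
    refine ⟨i, h5, p.val - B i, by omega, ?_⟩
    rw [show B i + (p.val - B i) = p.val by omega, ZMod.natCast_zmod_val]
  have hb0 : b 0 = true := by
    have := hbr 0 (Nat.zero_le _)
    rwa [hB0, Nat.cast_zero] at this
  have hb1 : ∀ p, b p = true → b (p + 1) = false := by
    intro p hp
    obtain ⟨i, hi, h⟩ := of_decide_eq_true hp
    have h1 : p + 1 = ((B i + 1 : ℕ) : ZMod L) := by
      rw [Nat.cast_add, Nat.cast_one, ← h, ZMod.natCast_zmod_val]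
    rw [h1]
    exact hin i hi 1 one_pos (hq i hi)
  refine ⟨b, hb0, hb1, ?_⟩
  have fwd : ∀ i < r, ∀ k, k + 1 ≤ q i →
      (hagA b ^ (k + 1)) (((B i : ℕ) : ZMod L), true) = (((B i + (k + 1) : ℕ) : ZMod L), false) := by
    intro i hi k
    induction k with
    | zero =>
      intro _
      rw [zero_add, pow_one, hagA_apply, hbr i hi.le]
      simp
    | succ k ih =>
      intro hk
      rw [pow_succ', Perm.mul_apply, ih (by omega), hagA_apply,
        hin i hi (k + 1) (by omega) (by omega)]
      simp only [Bool.xor_self, Bool.false_eq_true, if_false, Prod.mk.injEq, and_true]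
      push_cast; ring
  have bwd : ∀ i < r, ∀ k, k + 1 ≤ q i →
      (hagA b ^ (q i + (k + 1))) (((B i : ℕ) : ZMod L), true) =
        (((B i + (q i - (k + 1)) : ℕ) : ZMod L), true) := by
    intro i hi k
    induction k with
    | zero =>
      intro h
      obtain ⟨m, hm⟩ : ∃ m, q i = m + 1 := ⟨q i - 1, by omega⟩
      have h1 := fwd i hi m (by omega)
      rw [← hm, ← hBs] at h1
      rw [zero_add, add_comm (q i) 1, pow_add, pow_one, Perm.mul_apply, h1, hagA_apply,
        hbr (i + 1) hi, hBs]
      simp only [Bool.false_xor, if_true, Prod.mk.injEq, and_true]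
      rw [hm, Nat.add_sub_cancel]
      push_cast; ring
    | succ k ih =>
      intro hk
      rw [← add_assoc, pow_succ', Perm.mul_apply, ih (by omega), hagA_apply,
        hin i hi (q i - (k + 1)) (by omega) (by omega)]
      simp only [Bool.xor_false, if_true, Prod.mk.injEq, and_true]
      rw [show q i - (k + 1) = q i - (k + 1 + 1) + 1 by omega]
      push_cast; ring
  refine IsType.of_reps (hagA b) _ (fun i => ?_) (fun i => (((B i.1 : ℕ) : ZMod L), true))
    ?_ ?_ ?_
  · have := hq i.1 i.2; omega
  · intro i
    have h1 := hq i.1 i.2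
    obtain ⟨m, hm⟩ : ∃ m, q i.1 = m + 1 := ⟨q i.1 - 1, by omega⟩
    have h2 := bwd i.1 i.2 m (by omega)
    rw [two_mul]
    nth_rw 2 [hm]
    rw [h2, hm]
    simp
  · rintro ⟨p, e⟩
    obtain ⟨i, hi, x, hx, rfl⟩ := hcov p
    cases e with
    | true =>
      rcases Nat.eq_zero_or_pos x with h0 | h0
      · subst h0
        exact ⟨⟨i, hi⟩, 0, by simp⟩
      · refine ⟨⟨i, hi⟩, q i + (q i - x - 1 + 1), ?_⟩
        rw [bwd i hi (q i - x - 1) (by omega)]
        congr 3
        omega
    | false =>
      rcases Nat.eq_zero_or_pos x with h0 | h0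
      · subst h0
        rcases Nat.eq_zero_or_pos i with hi0 | hi0
        · subst hi0
          have h1 := hq (r - 1) (by omega)
          refine ⟨⟨r - 1, by omega⟩, q (r - 1) - 1 + 1, ?_⟩
          rw [fwd (r - 1) (by omega) _ (by omega)]
          have h2 : B (r - 1) + (q (r - 1) - 1 + 1) = L := by
            have h3 := hBs (r - 1)
            rw [Nat.sub_add_cancel hr] at h3
            omega
          rw [h2, hB0]
          simp
        · have h1 := hq (i - 1) (by omega)
          refine ⟨⟨i - 1, by omega⟩, q (i - 1) - 1 + 1, ?_⟩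
          rw [fwd (i - 1) (by omega) _ (by omega)]
          have h2 : B (i - 1) + (q (i - 1) - 1 + 1) = B i := by
            have h3 := hBs (i - 1)
            rw [Nat.sub_add_cancel hi0] at h3
            omega
          rw [h2, add_zero]
      · refine ⟨⟨i, hi⟩, x - 1 + 1, ?_⟩
        rw [fwd i hi _ (by omega), Nat.sub_add_cancel h0]
  · rw [← Finset.mul_sum, Fin.sum_univ_eq_sum_range q r, hL]
    simp [ZMod.card, mul_comm]

/- PROOF. Write U = fam (fun i : Fin r => 2 * q i) with q i >= 2, sum q i = L (Tc_exists_fam).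
Positions p : ZMod L; the breaks are b i = q 0 + ... + q (i-1) (r >= 1 since L >= 2; b 0 = 0), Br = their
set in ZMod L. As q i >= 2 no two cyclically consecutive positions are breaks; every position is
b i + x for exactly one (i, x), x < q i (finSigmaFinEquiv or sum estimates); (i, x) break iff x = 0;
b i + q i is a break.
First permutation A := move * flip, flip (p, e) = (p, if p in Br then !e else e), move (p, false) =
(p + 1, false), move (p, true) = (p - 1, true). So A (p, e) = (p + 1, false) if e = [p in Br], else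
(p - 1, true).
TYPE OF A (IsType.of_reps with n i = 2 q i, w i = (b i, true)): A^k (b i, true) = (b i + k, false) for
1 <= k <= q i, and = (b i + 2 q i - k, true) for q i < k <= 2 q i. Covering: (b i + x, false),
0 < x < q i, is A^x; (b i + x, true) is A^(2 q i - x) for x > 0, A^0 for x = 0; (b i, false) =
A^(q j) (b j, true) for the previous interval j (b i = b j + q j in ZMod L). Sum of 2 q i = 2 L = card.
Second permutation B := G.permCongr A, G (p, e) = (p, xor e (g p)), where g = true on breaks and
g (b i + x) = decide (x % 2 = 1) for 0 < x < q i.  Same type (IsType.conj).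
WEIGHTS. The arcs of A across the gap (p, p + 1) are (p, [p in Br]) -> (p + 1, false) and
(p + 1, ![p + 1 in Br]) -> (p, true), those of B the same shifted by g; for all x y : Bool exactly one of
  x = [p in Br], y = false;                     x = true, y = ![p+1 in Br];
  x = xor [p in Br] (g p), y = g (p+1);         x = !(g p), y = xor (![p+1 in Br]) (g (p+1))
holds: cases p, p+1 not in Br (then g (p+1) = !g p), p in Br (then p+1 not in Br, g p = true),
p+1 in Br (then p not in Br, g (p+1) = true). Hence wt A + wt B at ((p,x),(p',y)) is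
[p + 1 = p'] + [p' + 1 = p] = wt (addRight 1) p p' (true for L = 2 too: an arc leaving (p, e) is a
forward arc iff e = [p in Br] resp. e = xor [p in Br] (g p), so forward and backward arcs are told
apart by the second coordinate of their initial point).
Computer check: function hag in /team-store/h55_0d0865_full.py. -/
theorem hag {L : ℕ} (hL : 2 ≤ L) {U : Multiset ℕ} (hU : Bip U) (hs : U.sum = 2 * L) :
    DG (fun p q : ZMod L × Bool => wt (Equiv.addRight (1 : ZMod L)) p.1 q.1) U := by
  obtain ⟨r, l, hl⟩ := Tc_exists_fam U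
  have hl2 : ∀ i, 2 ∣ l i ∧ 4 ≤ l i := fun i =>
    hU _ (by rw [← hl]; exact Multiset.mem_map_of_mem _ (Finset.mem_univ i))
  let q : ℕ → ℕ := fun n => if h : n < r then l ⟨n, h⟩ / 2 else 0
  have hq0 : ∀ i : Fin r, 2 * q i.1 = l i := by
    intro i
    have h1 : q i.1 = l i / 2 := dif_pos i.2
    have := hl2 i
    omega
  have hlU : fam (fun i : Fin r => 2 * q i.1) = U := by
    rw [← hl]; congr 1; funext i; exact hq0 i
  have hq : ∀ i < r, 2 ≤ q i := by
    intro i hi
    have h1 := hq0 ⟨i, hi⟩
    have h2 := hl2 ⟨i, hi⟩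
    simp only at h1
    omega
  have hsum : ∑ i ∈ Finset.range r, q i = L := by
    have h1 : ∑ i : Fin r, 2 * q i.1 = 2 * L := by
      rw [← hs, ← hlU]; rfl
    rw [← Finset.mul_sum, Fin.sum_univ_eq_sum_range q r] at h1
    omega
  have hr : 0 < r := by
    rcases Nat.eq_zero_or_pos r with h | h
    · subst h
      simp at hsum
      omega
    · exact h
  obtain ⟨b, hb0, hb1, hbt⟩ := hagA_type q hq hr hsum
  rw [hlU] at hbt
  have : NeZero L := ⟨by omega⟩
  let g : ZMod L → Bool := fun p => if b p then true else decide (p.val % 2 = 1)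
  have hg1 : ∀ p, b p = true → g p = true := fun p h => by simp only [g, h, if_true]
  have hg2 : ∀ p, b p = false → b (p + 1) = false → g (p + 1) = !g p := by
    intro p h h'
    simp only [g, h, h', Bool.false_eq_true, if_false]
    have h1 : (p + 1).val = p.val + 1 := by
      have h2 : p + 1 = ((p.val + 1 : ℕ) : ZMod L) := by
        rw [Nat.cast_add, Nat.cast_one, ZMod.natCast_zmod_val]
      have h3 := ZMod.val_lt p
      have h4 : p.val + 1 ≠ L := by
        intro h5
        rw [h2, h5, ZMod.natCast_self, hb0] at h'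
        exact absurd h' (by decide)
      rw [h2, ZMod.val_natCast, Nat.mod_eq_of_lt (by omega)]
    rw [h1]
    by_cases h5 : p.val % 2 = 1
    · rw [decide_eq_false (by omega), decide_eq_true h5]; rfl
    · rw [decide_eq_true (by omega), decide_eq_false h5]; rfl
  refine ⟨Bool, inferInstance, fun c => if c then hagA b else (hagFlip g).permCongr (hagA b),
    ?_, ?_⟩
  · rintro (_ | _)
    · simp only [Bool.false_eq_true, if_false]
      exact hbt.conj _
    · simpa using hbt
  · intro u v
    rw [Fintype.sum_bool]
    simp only [if_true, Bool.false_eq_true, if_false]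
    exact hag_weights b g hb1 hg1 hg2 u v

/- Consequence: blow-up of an arbitrary sum of Hamilton cycles.  Take the model of IsType (p j) {L}
(a bijection of ZMod L with V, from IsType.exists_equiv with Unit as index type), transport `hag`
along the bijection times the identity of Bool, and sum over j (DG.congr, DG.sum, DG.ext). -/
theorem DG.blow {V : Type} [DecidableEq V] {w : V → V → ℕ} {L : ℕ} (hL : 2 ≤ L)
    (h : DG w {L}) {U : Multiset ℕ} (hU : Bip U) (hs : U.sum = 2 * L) :
    DG (fun p q : V × Bool => w p.1 q.1) U := by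
  obtain ⟨J, _, p, h1, h2⟩ := h
  have h3 : ∀ j, DG (fun x y : V × Bool => wt (p j) x.1 y.1) U := by
    intro j
    obtain ⟨e, he⟩ := (h1 j).exists_equiv (fun _ : Unit => L) (by simp [fam])
    let e' : ZMod L ≃ V := (Equiv.uniqueSigma (fun _ : Unit => ZMod L)).symm.trans e
    have he' : ∀ x, p j (e' x) = e' (x + 1) := fun x => he () x
    have h4 : ∀ x y : V, wt (Equiv.addRight (1 : ZMod L)) (e'.symm x) (e'.symm y) =
        wt (p j) x y := by
      intro x y
      obtain ⟨x, rfl⟩ := e'.surjective x
      obtain ⟨y, rfl⟩ := e'.surjective y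
      rw [Equiv.symm_apply_apply, Equiv.symm_apply_apply]
      simp only [wt, he', e'.injective.eq_iff, Equiv.coe_addRight]
      congr
    refine ((hag hL hU hs).congr (e'.prodCongr (Equiv.refl Bool))).ext ?_
    intro x y
    exact (h4 x.1 y.1).symm
  refine (DG.sum h3).ext ?_
  intro x y
  exact h2 _ _

end Pool.Agent.H.Tc55
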