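import Pool.Agent.H.Tc55.Defs

/-! Labels by Hall's theorem (helper55, MP_0d0865_co). -/

set_option autoImplicit false

namespace Pool.Agent.H.Tc55

open Finset Equiv Pool.Agent.H.Tc26

theorem orient {J A : Type} [Fintype J] [DecidableEq J] [Fintype A] [DecidableEq A] (p q : J → A)
    (h : ∀ a, ∑ j, ((if p j = a then 1 else 0) + (if q j = a then 1 else 0)) = 2) :
    ∃ s : J → Bool, Function.Bijective (fun j => if s j then p j else q j) := by
  have hall : ∀ X : Finset J, X.card ≤ (X.biUnion fun j => {p j, q j}).card := by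
    intro X
    set N := X.biUnion fun j => {p j, q j} with hN
    have h1 : ∑ j ∈ X, ∑ a ∈ N, ((if p j = a then 1 else 0) + (if q j = a then 1 else 0)) =
        ∑ j ∈ X, 2 := by
      refine Finset.sum_congr rfl fun j hj => ?_
      have hp : p j ∈ N := by
        rw [hN, Finset.mem_biUnion]; exact ⟨j, hj, by simp⟩
      have hq : q j ∈ N := by
        rw [hN, Finset.mem_biUnion]; exact ⟨j, hj, by simp⟩
      rw [Finset.sum_add_distrib, Finset.sum_ite_eq, Finset.sum_ite_eq, if_pos hp, if_pos hq]
    rw [Finset.sum_comm] at h1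
    have h2 : ∑ a ∈ N, ∑ j ∈ X, ((if p j = a then 1 else 0) + (if q j = a then 1 else 0)) ≤
        ∑ a ∈ N, 2 := by
      refine Finset.sum_le_sum fun a _ => ?_
      rw [← h a]
      exact Finset.sum_le_sum_of_subset (Finset.subset_univ X)
    rw [h1, Finset.sum_const, Finset.sum_const, smul_eq_mul, smul_eq_mul] at h2
    omega
  obtain ⟨f, hf, hft⟩ :=
    (Finset.all_card_le_biUnion_card_iff_exists_injective fun j => {p j, q j}).1 hall
  have hcard : Fintype.card J = Fintype.card A := by
    have h1 : ∑ a, ∑ j, ((if p j = a then 1 else 0) + (if q j = a then 1 else 0)) =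
        Fintype.card A * 2 := by
      rw [Finset.sum_congr rfl fun a _ => h a]
      simp
    rw [Finset.sum_comm] at h1
    have h2 : ∀ j : J, ∑ a, ((if p j = a then 1 else 0) + (if q j = a then 1 else 0)) = 2 := by
      intro j
      rw [Finset.sum_add_distrib, Finset.sum_ite_eq, Finset.sum_ite_eq]
      simp
    rw [Finset.sum_congr rfl fun j _ => h2 j] at h1
    simp only [Finset.sum_const, Finset.card_univ, smul_eq_mul] at h1
    omega
  refine ⟨fun j => decide (f j = p j), ?_⟩
  have he : (fun j => if decide (f j = p j) = true then p j else q j) = f := by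
    funext j
    by_cases hj : f j = p j
    · simp [hj]
    · have := hft j
      simp only [Finset.mem_insert, Finset.mem_singleton] at this
      rcases this with h1 | h1
      · exact absurd h1 hj
      · rw [decide_eq_false hj, if_neg Bool.false_ne_true, h1]
  rw [he]
  exact (Fintype.bijective_iff_injective_and_card f).2 ⟨hf, hcard⟩

theorem Lab_one {J A : Type} [Fintype J] [DecidableEq A] {f : J → A}
    (hf : Function.Bijective f) (a : A) : ∑ j, (if f j = a then 1 else 0) = 1 := by
  obtain ⟨j, hj, hu⟩ := hf.existsUnique a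
  rw [Finset.sum_eq_single j]
  · rw [if_pos hj]
  · intro j' _ h'
    rw [if_neg fun h => h' (hu j' h)]
  · intro h; exact absurd (Finset.mem_univ j) h

theorem Lab_bij {J A : Type} [Fintype J] [DecidableEq A] {f : J → A}
    (hf : ∀ a, ∑ j, (if f j = a then 1 else 0) = 1) (a : A) : ∃! j, f j = a := by
  have h1 := hf a
  rw [Finset.sum_boole] at h1
  have h2 : (Finset.univ.filter fun j => f j = a).card = 1 := by exact_mod_cast h1
  obtain ⟨j, hj⟩ := Finset.card_eq_one.1 h2
  have h3 : ∀ j', f j' = a ↔ j' = j := by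
    intro j'
    have : j' ∈ (Finset.univ.filter fun j => f j = a) ↔ j' ∈ ({j} : Finset J) := by rw [hj]
    simpa using this
  exact ⟨j, (h3 j).2 rfl, fun j' h => (h3 j').1 h⟩

theorem orient2 {J A : Type} [Fintype J] [DecidableEq J] [Fintype A] [DecidableEq A] (p q : J → A)
    (h : ∀ a, ∑ j, ((if p j = a then 1 else 0) + (if q j = a then 1 else 0)) = 2) :
    ∃ s : J → Bool, (∀ a, ∃! j, (if s j then p j else q j) = a) ∧
      ∀ a, ∃! j, (if s j then q j else p j) = a := by
  obtain ⟨s, hs⟩ := orient p q h
  refine ⟨s, fun a => hs.existsUnique a, Lab_bij ?_⟩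
  intro a
  have h1 := Lab_one hs a
  have h2 := h a
  have h3 : ∑ j, ((if (if s j then p j else q j) = a then 1 else 0) +
      (if (if s j then q j else p j) = a then 1 else 0)) = 2 := by
    rw [← h2]
    refine Finset.sum_congr rfl fun j _ => ?_
    cases s j
    · simp only [Bool.false_eq_true, if_false]; rw [add_comm]
    · simp only [if_true]
  rw [Finset.sum_add_distrib, h1] at h3
  omega

theorem lab {V : Type} [Fintype V] [DecidableEq V] {w : V → V → ℕ} {U : Multiset ℕ}
    (h : DG w U) (hw : ∀ a b, w a b = 0 ∨ w a b = 2) :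
    ∃ (J : Type) (_ : Fintype J) (r : J → Perm V) (l : J → V → Bool),
      (∀ j, IsType (r j) U) ∧ (∀ j a, w a (r j a) = 2) ∧
      ∀ a b : V, w a b = 2 → ∀ c : Bool, ∃! q : J × Bool,
        (q.2 = true ∧ r q.1 a = b ∧ l q.1 b = c) ∨
          (q.2 = false ∧ r q.1 b = a ∧ l q.1 b = !c) := by
  classical
  obtain ⟨J, _, r, ht, hr⟩ := h
  have hle : ∀ j a b, wt (r j) a b ≤ w a b := by
    intro j a b
    rw [hr]
    exact Finset.single_le_sum (f := fun j => wt (r j) a b) (fun _ _ => Nat.zero_le _)
      (Finset.mem_univ j)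
  have h1 : ∀ j a, w a (r j a) = 2 := by
    intro j a
    have h2 := hle j a (r j a)
    have h3 : 1 ≤ wt (r j) a (r j a) := by simp [wt]
    rcases hw a (r j a) with h4 | h4 <;> omega
  have h2 : ∀ j b, w (r j b) b = 2 := by
    intro j b
    have h2 := hle j (r j b) b
    have h3 : 1 ≤ wt (r j) (r j b) b := by simp [wt]
    rcases hw (r j b) b with h4 | h4 <;> omega
  have h1' : ∀ j b, w ((r j).symm b) b = 2 := by
    intro j b
    have := h1 j ((r j).symm b)
    rwa [Equiv.apply_symm_apply] at this
  have key : ∀ b : V, ∃ s : J → Bool,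
      (∀ a : {a // w a b = 2}, ∃! j, (if s j then (⟨(r j).symm b, h1' j b⟩ : {a // w a b = 2})
        else ⟨r j b, h2 j b⟩) = a) ∧
      ∀ a : {a // w a b = 2}, ∃! j, (if s j then (⟨r j b, h2 j b⟩ : {a // w a b = 2})
        else ⟨(r j).symm b, h1' j b⟩) = a := by
    intro b
    refine orient2 (fun j => (⟨(r j).symm b, h1' j b⟩ : {a // w a b = 2}))
      (fun j => ⟨r j b, h2 j b⟩) ?_
    rintro ⟨a, ha⟩
    refine Eq.trans ?_ ((hr a b).symm.trans ha)
    refine Finset.sum_congr rfl fun j _ => ?_
    simp only [Subtype.mk.injEq, wt]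
    have e1 : (r j).symm b = a ↔ r j a = b := by rw [Equiv.symm_apply_eq, eq_comm]
    simp only [e1]
  choose s hs1 hs2 using key
  refine ⟨J, inferInstance, r, fun j b => s b j, ht, h1, ?_⟩
  intro a b hab c
  have e1 : ∀ j, ((r j).symm b = a ↔ r j a = b) := fun j => by
    rw [Equiv.symm_apply_eq, eq_comm]
  cases c
  · obtain ⟨j, hj, hu⟩ := hs2 b ⟨a, hab⟩
    simp only at hj hu
    refine ⟨(j, !s b j), ?_, ?_⟩
    · cases hsj : s b j
      · rw [hsj] at hj
        simp only [Bool.false_eq_true, if_false, Subtype.mk.injEq] at hj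
        exact Or.inl ⟨by simp, (e1 j).1 hj, by simp [hsj]⟩
      · rw [hsj] at hj
        simp only [if_true, Subtype.mk.injEq] at hj
        exact Or.inr ⟨by simp, hj, by simp [hsj]⟩
    · rintro ⟨j', d⟩ (⟨hd, h3, h4⟩ | ⟨hd, h3, h4⟩)
      · simp only at hd h3 h4
        have h5 := hu j' (by
          rw [h4]
          simp only [Bool.false_eq_true, if_false, Subtype.mk.injEq]
          exact (e1 j').2 h3)
        subst h5
        simp [hd, h4]
      · simp only [Bool.not_false] at hd h3 h4
        have h5 := hu j' (by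
          rw [h4]
          simp only [if_true, Subtype.mk.injEq]
          exact h3)
        subst h5
        simp [hd, h4]
  · obtain ⟨j, hj, hu⟩ := hs1 b ⟨a, hab⟩
    simp only at hj hu
    refine ⟨(j, s b j), ?_, ?_⟩
    · cases hsj : s b j
      · rw [hsj] at hj
        simp only [Bool.false_eq_true, if_false, Subtype.mk.injEq] at hj
        exact Or.inr ⟨by simp, hj, by simp [hsj]⟩
      · rw [hsj] at hj
        simp only [if_true, Subtype.mk.injEq] at hj
        exact Or.inl ⟨by simp, (e1 j).1 hj, by simp [hsj]⟩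
    · rintro ⟨j', d⟩ (⟨hd, h3, h4⟩ | ⟨hd, h3, h4⟩)
      · simp only at hd h3 h4
        have h5 := hu j' (by
          rw [h4]
          simp only [if_true, Subtype.mk.injEq]
          exact (e1 j').2 h3)
        subst h5
        simp [hd, h4]
      · simp only [Bool.not_true] at hd h3 h4
        have h5 := hu j' (by
          rw [h4]
          simp only [Bool.false_eq_true, if_false, Subtype.mk.injEq]
          exact h3)
        subst h5
        simp [hd, h4]

end Pool.Agent.H.Tc55
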