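import Pool.Agent.H.Tc55.LeftD

/-! Unions of two partitions into 4-sets, growth (helper55, MP_0d0865_co). -/

set_option autoImplicit false

namespace Pool.Agent.H.Tc55

open Finset Equiv Pool.Agent.H.Tc26

/-- A permutation with a system of representatives of its orbits. -/
theorem LeftB_reps {W : Type} [Fintype W] (p : Perm W) {I : Type} [Fintype I] (n : I → ℕ)
    (hn : ∀ i, 0 < n i) (w : I → W) (hper : ∀ i, (p ^ n i) (w i) = w i)
    (hcov : ∀ x, ∃ i, ∃ k : ℕ, x = (p ^ k) (w i)) (hcard : ∑ i, n i = Fintype.card W) :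
    ∃ m : (Σ i, ZMod (n i)) ≃ W, (∀ i, m ⟨i, 0⟩ = w i) ∧
      ∀ i y, p (m ⟨i, y⟩) = m ⟨i, y + 1⟩ := by
  have : ∀ i, NeZero (n i) := fun i => ⟨(hn i).ne'⟩
  let F : (Σ i, ZMod (n i)) → W := fun q => (p ^ q.2.val) (w q.1)
  have hq : ∀ i q, (p ^ (n i * q)) (w i) = w i := by
    intro i q
    induction q with
    | zero => simp
    | succ q ih => rw [Nat.mul_succ, pow_add, Perm.mul_apply, hper, ih]
  have hk : ∀ i (k : ℕ), F ⟨i, (k : ZMod (n i))⟩ = (p ^ k) (w i) := by
    intro i k
    change (p ^ (k : ZMod (n i)).val) (w i) = _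
    rw [ZMod.val_natCast]
    conv_rhs => rw [← Nat.mod_add_div k (n i), pow_add, Perm.mul_apply, hq]
  have hs : Function.Surjective F := by
    intro x
    obtain ⟨i, k, rfl⟩ := hcov x
    exact ⟨⟨i, (k : ZMod (n i))⟩, hk i k⟩
  have hb : Function.Bijective F := by
    rw [Fintype.bijective_iff_surjective_and_card]
    refine ⟨hs, ?_⟩
    rw [Fintype.card_sigma, ← hcard]
    exact Finset.sum_congr rfl fun i _ => ZMod.card (n i)
  refine ⟨Equiv.ofBijective F hb, ?_, ?_⟩
  · intro i
    change (p ^ (0 : ZMod (n i)).val) (w i) = w i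
    rw [ZMod.val_zero, pow_zero, Perm.one_apply]
  · intro i x
    change p (F ⟨i, x⟩) = F ⟨i, x + 1⟩
    have h1 : x + 1 = ((x.val + 1 : ℕ) : ZMod (n i)) := by
      rw [Nat.cast_add, ZMod.natCast_zmod_val, Nat.cast_one]
    rw [h1, hk, pow_succ', Perm.mul_apply]

/-- The cycle structure of the enlarged permutation. -/
theorem LeftB_cyc {V : Type} [Fintype V] {I : Type} [Fintype I] [DecidableEq I] {l : I → ℕ}
    (s : Perm V) (v : I → V) (m : (Σ i, ZMod (l i)) ≃ V) (hm0 : ∀ i, m ⟨i, 0⟩ = v i)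
    (hm : ∀ i y, s (m ⟨i, y⟩) = m ⟨i, y + 1⟩) (i0 : I) (s' : Perm (V ⊕ (Bool × Bool)))
    (c0 c1 c2 c3 : Bool × Bool) (hc : ∀ b, b = c0 ∨ b = c1 ∨ b = c2 ∨ b = c3)
    (h1 : ∀ a, s a ≠ v i0 → s' (Sum.inl a) = Sum.inl (s a))
    (h2 : ∀ a, s a = v i0 → s' (Sum.inl a) = Sum.inr c0)
    (h3 : s' (Sum.inr c0) = Sum.inr c1) (h4 : s' (Sum.inr c1) = Sum.inr c2)
    (h5 : s' (Sum.inr c2) = Sum.inr c3) (h6 : s' (Sum.inr c3) = Sum.inl (v i0)) :
    ∃ m' : (Σ i, ZMod (if i = i0 then l i + 4 else l i)) ≃ V ⊕ (Bool × Bool),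
      (∀ i, m' ⟨i, 0⟩ = Sum.inl (v i)) ∧ ∀ i y, s' (m' ⟨i, y⟩) = m' ⟨i, y + 1⟩ := by
  have hpos := Tc_pos_model m
  have : ∀ i, NeZero (l i) := fun i => ⟨(hpos i).ne'⟩
  have hpw : ∀ i (k : ℕ), (s ^ k) (v i) = m ⟨i, (k : ZMod (l i))⟩ := by
    intro i k
    rw [← hm0]; exact Tc_pow_model m hm i k
  -- other cycles
  have hoth : ∀ i, i ≠ i0 → ∀ k : ℕ, (s' ^ k) (Sum.inl (v i)) = Sum.inl ((s ^ k) (v i)) := by
    intro i hi k
    induction k with
    | zero => simp
    | succ k ih =>
      rw [pow_succ', Perm.mul_apply, ih, h1]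
      · rw [pow_succ', Perm.mul_apply]
      · rw [← Perm.mul_apply, ← pow_succ', hpw, ← hm0 i0]
        intro h
        have := m.injective h
        exact hi (by simpa using congrArg Sigma.fst this)
  have hthis : ∀ k : ℕ, k < l i0 → (s' ^ k) (Sum.inl (v i0)) = Sum.inl ((s ^ k) (v i0)) := by
    intro k
    induction k with
    | zero => intro _; simp
    | succ k ih =>
      intro hk
      rw [pow_succ', Perm.mul_apply, ih (by omega), h1]
      · rw [pow_succ', Perm.mul_apply]
      · rw [← Perm.mul_apply, ← pow_succ', hpw, ← hm0 i0]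
        intro h
        have h7 := m.injective h
        have h8 : ((k + 1 : ℕ) : ZMod (l i0)) = 0 := by simpa using h7
        rw [ZMod.natCast_eq_zero_iff] at h8
        have := Nat.le_of_dvd (by omega) h8
        omega
  have hl0 : (s' ^ (l i0)) (Sum.inl (v i0)) = Sum.inr c0 := by
    obtain ⟨t, ht⟩ : ∃ t, l i0 = t + 1 := ⟨l i0 - 1, by have := hpos i0; omega⟩
    rw [ht, pow_succ', Perm.mul_apply, hthis t (by omega), h2]
    rw [← Perm.mul_apply, ← pow_succ', hpw, ← ht, ← hm0 i0]
    simp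
  have hl1 : (s' ^ (l i0 + 1)) (Sum.inl (v i0)) = Sum.inr c1 := by
    rw [pow_succ', Perm.mul_apply, hl0, h3]
  have hl2 : (s' ^ (l i0 + 1 + 1)) (Sum.inl (v i0)) = Sum.inr c2 := by
    rw [pow_succ', Perm.mul_apply, hl1, h4]
  have hl3 : (s' ^ (l i0 + 1 + 1 + 1)) (Sum.inl (v i0)) = Sum.inr c3 := by
    rw [pow_succ', Perm.mul_apply, hl2, h5]
  have hl4 : (s' ^ (l i0 + 4)) (Sum.inl (v i0)) = Sum.inl (v i0) := by
    change (s' ^ (l i0 + 1 + 1 + 1 + 1)) (Sum.inl (v i0)) = Sum.inl (v i0)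
    rw [pow_succ', Perm.mul_apply, hl3, h6]
  refine LeftB_reps s' _ ?_ (fun i => Sum.inl (v i)) ?_ ?_ ?_
  · intro i
    have := hpos i
    split_ifs <;> omega
  · intro i
    by_cases hi : i = i0
    · subst hi
      simp only [if_true]
      exact hl4
    · simp only [if_neg hi]
      rw [hoth i hi, hpw, ← hm0 i]
      simp
  · rintro (a | b)
    · obtain ⟨⟨i, y⟩, rfl⟩ := m.surjective a
      refine ⟨i, y.val, ?_⟩
      by_cases hi : i = i0
      · subst hi
        rw [hthis _ (ZMod.val_lt y), hpw, ZMod.natCast_zmod_val]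
      · rw [hoth i hi, hpw, ZMod.natCast_zmod_val]
    · refine ⟨i0, ?_⟩
      rcases hc b with rfl | rfl | rfl | rfl
      · exact ⟨_, hl0.symm⟩
      · exact ⟨_, hl1.symm⟩
      · exact ⟨_, hl2.symm⟩
      · exact ⟨_, hl3.symm⟩
  · have hsum : ∑ i, (if i = i0 then l i + 4 else l i) = ∑ i, (l i + if i = i0 then 4 else 0) :=
      Finset.sum_congr rfl fun i _ => by split_ifs <;> rfl
    rw [hsum, Finset.sum_add_distrib, Tc_card_model m, Fintype.card_sum]
    simp

/-- A permutation made of two involutions which change the colour. -/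
def LeftB_sw {V : Type} (p q : Perm V) (x : V → Bool) (hp : ∀ a, p (p a) = a)
    (hq : ∀ a, q (q a) = a) (hpx : ∀ a, x (p a) = !x a) (hqx : ∀ a, x (q a) = !x a) : Perm V where
  toFun a := if x a then q a else p a
  invFun a := if x a then p a else q a
  left_inv := by
    intro a
    cases h : x a <;> simp [h, hpx, hqx, hp, hq]
  right_inv := by
    intro a
    cases h : x a <;> simp [h, hpx, hqx, hp, hq]

/-- Adding one new 4-set to a partition. -/
def LeftB_ext {K V : Type} (e : K × (Bool × Bool) ≃ V) :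
    (K ⊕ Unit) × (Bool × Bool) ≃ V ⊕ (Bool × Bool) :=
  (Equiv.sumProdDistrib K Unit (Bool × Bool)).trans
    (Equiv.sumCongr e (Equiv.uniqueProd (Bool × Bool) Unit))

theorem LeftB_tra_inl {K V : Type} (e : K × (Bool × Bool) ≃ V) (c : Bool × Bool) (a : V) :
    tra (LeftB_ext e) c (Sum.inl a) = Sum.inl (tra e c a) := by
  simp [tra, LeftB_ext, Equiv.permCongr_apply, Prod.map]

theorem LeftB_tra_inr {K V : Type} (e : K × (Bool × Bool) ≃ V) (c : Bool × Bool)
    (b : Bool × Bool) : tra (LeftB_ext e) c (Sum.inr b) = Sum.inr (tr c b) := by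
  simp [tra, LeftB_ext, Equiv.permCongr_apply]

theorem LeftB_tra_trans {K V : Type} (e : K × (Bool × Bool) ≃ V) (g : Perm V) (c : Bool × Bool)
    (a : V) : tra (e.trans g) c a = g (tra e c (g.symm a)) := by
  simp [tra, Equiv.permCongr_apply]

theorem LeftB_tra_inv {K V : Type} (e : K × (Bool × Bool) ≃ V) (c : Bool × Bool)
    (a : V) : tra e c (tra e c a) = a := by
  simp [tra, Equiv.permCongr_apply, tr, Prod.map]

/-- The colour of the new points. -/
def LeftB_x (j : Fin 3) (b : Bool × Bool) : Bool := decide (b = cc j ∨ b = cc (j + 1))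

theorem LeftB_x1 : ∀ (j : Fin 3) (b : Bool × Bool), LeftB_x j (tr (cc j) b) = !LeftB_x j b := by
  decide

theorem LeftB_x2 : ∀ (j : Fin 3) (b : Bool × Bool),
    LeftB_x j (tr (cc (j + 1)) b) = !LeftB_x j b := by
  decide

/- GROWTH. K' = K + Unit, V' = V + (Bool x Bool); put o = inr (f,f), v0 = inl (v i0).
e1' = e1 on K, the identity on the new 4-set. e2' = (e2, identity) followed by the transposition
of v0 and o. x j on the new 4-set: false at (f,f), true at cc j, false at cc j + cc (j+1), true at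
cc (j+1). Let b = tra e2 (cc (j+1)) (v i0); s j b = v i0 as b has colour true. Then s' j agrees with s j
on inl V except s' j (inl b) = o, and s' j runs o, cc j, cc j + cc (j+1), cc (j+1), inl (v i0). So the cycle
through v i0 becomes longer by 4 and the others are unchanged. m': for i <> i0 as before, for i0:
<i0, y> |-> inl (m j <i0, y>) for y < l i0, then the four new points in this order. -/
theorem Un.grow {I : Type} [Fintype I] [DecidableEq I] {l : I → ℕ} (u : Un I l) (i0 : I) :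
    Nonempty (Un I (fun i => if i = i0 then l i + 4 else l i)) := by
  obtain ⟨K, V, fK, dK, dV, e1, e2, x, s, v, m, h1, h2, hs, hv, hm0, hm⟩ := u
  have fV : Fintype V := Fintype.ofEquiv _ e1
  obtain ⟨g, hg⟩ : ∃ g : Perm (V ⊕ (Bool × Bool)),
      g = Equiv.swap (Sum.inl (v i0)) (Sum.inr (false, false)) := ⟨_, rfl⟩
  have hgs : g.symm = g := by rw [hg, Equiv.symm_swap]
  have gl : g (Sum.inl (v i0)) = Sum.inr (false, false) := by rw [hg, Equiv.swap_apply_left]
  have gr : g (Sum.inr (false, false)) = Sum.inl (v i0) := by rw [hg, Equiv.swap_apply_right]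
  have gl' : ∀ a, a ≠ v i0 → g (Sum.inl a) = Sum.inl a := by
    intro a ha
    rw [hg, Equiv.swap_apply_of_ne_of_ne] <;> simp [ha]
  have gr' : ∀ b, b ≠ (false, false) → g (Sum.inr b) = Sum.inr b := by
    intro b hb
    rw [hg, Equiv.swap_apply_of_ne_of_ne] <;> simp [hb]
  obtain ⟨x', hx'⟩ : ∃ x' : Fin 3 → V ⊕ (Bool × Bool) → Bool,
    x' = fun j => Sum.elim (x j) (LeftB_x j) := ⟨_, rfl⟩
  have xl : ∀ j a, x' j (Sum.inl a) = x j a := by intro j a; rw [hx']; rfl
  have xr : ∀ j b, x' j (Sum.inr b) = LeftB_x j b := by intro j b; rw [hx']; rfl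
  have hff : ∀ j : Fin 3, LeftB_x j (false, false) = false := by decide
  have xg : ∀ j a, x' j (g a) = x' j a := by
    rintro j (a | b)
    · by_cases ha : a = v i0
      · rw [ha, gl, xl, xr, hff, hv]
      · rw [gl' a ha]
    · by_cases hb : b = (false, false)
      · rw [hb, gr, xl, xr, hff, hv]
      · rw [gr' b hb]
  have h1' : ∀ j a, x' j (tra (LeftB_ext e1) (cc j) a) = !x' j a := by
    rintro j (a | b)
    · rw [LeftB_tra_inl, xl, xl, h1]
    · rw [LeftB_tra_inr, xr, xr, LeftB_x1]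
  have h20 : ∀ j a, x' j (tra (LeftB_ext e2) (cc (j + 1)) a) = !x' j a := by
    rintro j (a | b)
    · rw [LeftB_tra_inl, xl, xl, h2]
    · rw [LeftB_tra_inr, xr, xr, LeftB_x2]
  have h2' : ∀ j a, x' j (tra ((LeftB_ext e2).trans g) (cc (j + 1)) a) = !x' j a := by
    intro j a
    rw [LeftB_tra_trans, xg, h20, hgs, xg]
  obtain ⟨s', hs'⟩ : ∃ s' : Fin 3 → Perm (V ⊕ (Bool × Bool)), ∀ j a, s' j a =
      if x' j a then tra ((LeftB_ext e2).trans g) (cc (j + 1)) a else
        tra (LeftB_ext e1) (cc j) a :=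
    ⟨fun j => LeftB_sw (tra (LeftB_ext e1) (cc j)) (tra ((LeftB_ext e2).trans g) (cc (j + 1)))
      (x' j) (LeftB_tra_inv _ _) (LeftB_tra_inv _ _) (h1' j) (h2' j), fun j a => rfl⟩
  have key : ∀ j, ∃ m' : (Σ i, ZMod (if i = i0 then l i + 4 else l i)) ≃ V ⊕ (Bool × Bool),
      (∀ i, m' ⟨i, 0⟩ = Sum.inl (v i)) ∧ ∀ i y, s' j (m' ⟨i, y⟩) = m' ⟨i, y + 1⟩ := by
    intro j
    have hc : ∀ (j : Fin 3) (b : Bool × Bool),
        b = (false, false) ∨ b = cc j ∨ b = cc (j + 2) ∨ b = cc (j + 1) := by decide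
    refine LeftB_cyc (s j) v (m j) (hm0 j) (hm j) i0 (s' j) (false, false) (cc j) (cc (j + 2))
      (cc (j + 1)) (hc j) ?_ ?_ ?_ ?_ ?_ ?_
    · intro a ha
      rw [hs', xl]
      rw [hs] at ha ⊢
      cases hxa : x j a
      · simp only [Bool.false_eq_true, if_false]
        rw [LeftB_tra_inl]
      · rw [hxa] at ha
        simp only [if_true] at ha ⊢
        have hav : a ≠ v i0 := by
          intro h
          rw [h, hv] at hxa
          exact Bool.false_ne_true hxa
        rw [LeftB_tra_trans, hgs, gl' a hav, LeftB_tra_inl, gl' _ ha]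
    · intro a ha
      have hxa : x j a = true := by
        cases hxa : x j a
        · exfalso
          rw [hs, hxa] at ha
          simp only [Bool.false_eq_true, if_false] at ha
          have h3 := h1 j a
          rw [ha, hv, hxa] at h3
          simp at h3
        · rfl
      rw [hs, hxa] at ha
      simp only [if_true] at ha
      rw [hs', xl, hxa]
      simp only [if_true]
      have hav : a ≠ v i0 := by
        intro h
        rw [h, hv] at hxa
        exact Bool.false_ne_true hxa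
      rw [LeftB_tra_trans, hgs, gl' a hav, LeftB_tra_inl, ha, gl]
    · rw [hs', xr, hff]
      simp only [Bool.false_eq_true, if_false]
      rw [LeftB_tra_inr]
      congr 1
      revert j; decide
    · have e1 : ∀ j : Fin 3, LeftB_x j (cc j) = true := by decide
      have e2' : ∀ j : Fin 3, cc j ≠ (false, false) := by decide
      have e3 : ∀ j : Fin 3, tr (cc (j + 1)) (cc j) = cc (j + 2) := by decide
      have e4 : ∀ j : Fin 3, cc (j + 2) ≠ (false, false) := by decide
      rw [hs', xr, e1]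
      simp only [if_true]
      rw [LeftB_tra_trans, hgs, gr' _ (e2' j), LeftB_tra_inr, e3, gr' _ (e4 j)]
    · have e1' : ∀ j : Fin 3, LeftB_x j (cc (j + 2)) = false := by decide
      have e3 : ∀ j : Fin 3, tr (cc j) (cc (j + 2)) = cc (j + 1) := by decide
      rw [hs', xr, e1']
      simp only [Bool.false_eq_true, if_false]
      rw [LeftB_tra_inr, e3]
    · have e1 : ∀ j : Fin 3, LeftB_x j (cc (j + 1)) = true := by decide
      have e2' : ∀ j : Fin 3, cc (j + 1) ≠ (false, false) := by decide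
      have e3 : ∀ j : Fin 3, tr (cc (j + 1)) (cc (j + 1)) = (false, false) := by decide
      rw [hs', xr, e1]
      simp only [if_true]
      rw [LeftB_tra_trans, hgs, gr' _ (e2' j), LeftB_tra_inr, e3, gr]
  choose m' hm0' hm' using key
  exact ⟨⟨K ⊕ Unit, V ⊕ (Bool × Bool), inferInstance, inferInstance, inferInstance, LeftB_ext e1,
    (LeftB_ext e2).trans g, x', s', fun i => Sum.inl (v i), m', h1', h2', hs',
    fun j i => (xl j (v i)).trans (hv j i), hm0', hm'⟩⟩

end Pool.Agent.H.Tc55
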