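import Pool.Agent.H.Tc55.LeftA
import Pool.Agent.H.Tc55.LeftB

/-! Unions of two partitions into 4-sets (helper55, MP_0d0865_co). -/

set_option autoImplicit false

namespace Pool.Agent.H.Tc55

open Finset Equiv Pool.Agent.H.Tc26

/-- The sum of two partitions. -/
private def Left_e {K K' V V' : Type} (e : K × (Bool × Bool) ≃ V) (e' : K' × (Bool × Bool) ≃ V') :
    (K ⊕ K') × (Bool × Bool) ≃ V ⊕ V' :=
  (Equiv.sumProdDistrib K K' (Bool × Bool)).trans (Equiv.sumCongr e e')

private theorem Left_inl {K K' V V' : Type} (e : K × (Bool × Bool) ≃ V)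
    (e' : K' × (Bool × Bool) ≃ V') (a : V) :
    ((Left_e e e').symm (Sum.inl a)).1 = Sum.inl (e.symm a).1 := rfl

private theorem Left_inr {K K' V V' : Type} (e : K × (Bool × Bool) ≃ V)
    (e' : K' × (Bool × Bool) ≃ V') (a : V') :
    ((Left_e e e').symm (Sum.inr a)).1 = Sum.inr (e'.symm a).1 := rfl

private theorem Left_k4_ll {K K' V V' : Type} [DecidableEq K] [DecidableEq K'] [DecidableEq V]
    [DecidableEq V'] (e : K × (Bool × Bool) ≃ V) (e' : K' × (Bool × Bool) ≃ V') (a b : V) :
    k4 (Left_e e e') (Sum.inl a) (Sum.inl b) = k4 e a b := by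
  unfold k4
  rw [Left_inl, Left_inl]
  refine if_congr ?_ rfl rfl
  rw [Sum.inl.injEq, ne_eq, Sum.inl.injEq]

private theorem Left_k4_rr {K K' V V' : Type} [DecidableEq K] [DecidableEq K'] [DecidableEq V]
    [DecidableEq V'] (e : K × (Bool × Bool) ≃ V) (e' : K' × (Bool × Bool) ≃ V') (a b : V') :
    k4 (Left_e e e') (Sum.inr a) (Sum.inr b) = k4 e' a b := by
  unfold k4
  rw [Left_inr, Left_inr]
  refine if_congr ?_ rfl rfl
  rw [Sum.inr.injEq, ne_eq, Sum.inr.injEq]

private theorem Left_k4_lr {K K' V V' : Type} [DecidableEq K] [DecidableEq K'] [DecidableEq V]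
    [DecidableEq V'] (e : K × (Bool × Bool) ≃ V) (e' : K' × (Bool × Bool) ≃ V') (a : V) (b : V') :
    k4 (Left_e e e') (Sum.inl a) (Sum.inr b) = 0 := by
  unfold k4
  rw [Left_inl, Left_inr]
  exact if_neg fun h => Sum.inl_ne_inr h.1

private theorem Left_k4_rl {K K' V V' : Type} [DecidableEq K] [DecidableEq K'] [DecidableEq V]
    [DecidableEq V'] (e : K × (Bool × Bool) ≃ V) (e' : K' × (Bool × Bool) ≃ V') (a : V') (b : V) :
    k4 (Left_e e e') (Sum.inr a) (Sum.inl b) = 0 := by
  unfold k4
  rw [Left_inl, Left_inr]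
  exact if_neg fun h => Sum.inr_ne_inl h.1

private theorem Left_wt_ll {V V' : Type} [DecidableEq V] [DecidableEq V'] (p : Perm V)
    (p' : Perm V') (a b : V) : wt (Equiv.sumCongr p p') (Sum.inl a) (Sum.inl b) = wt p a b := by
  change (if (Sum.inl (p a) : V ⊕ V') = Sum.inl b then 1 else 0) +
    (if (Sum.inl (p b) : V ⊕ V') = Sum.inl a then 1 else 0) =
    (if p a = b then 1 else 0) + (if p b = a then 1 else 0)
  refine congrArg₂ _ (if_congr ?_ rfl rfl) (if_congr ?_ rfl rfl) <;> rw [Sum.inl.injEq]

private theorem Left_wt_rr {V V' : Type} [DecidableEq V] [DecidableEq V'] (p : Perm V)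
    (p' : Perm V') (a b : V') : wt (Equiv.sumCongr p p') (Sum.inr a) (Sum.inr b) = wt p' a b := by
  change (if (Sum.inr (p' a) : V ⊕ V') = Sum.inr b then 1 else 0) +
    (if (Sum.inr (p' b) : V ⊕ V') = Sum.inr a then 1 else 0) =
    (if p' a = b then 1 else 0) + (if p' b = a then 1 else 0)
  refine congrArg₂ _ (if_congr ?_ rfl rfl) (if_congr ?_ rfl rfl) <;> rw [Sum.inr.injEq]

private theorem Left_wt_lr {V V' : Type} [DecidableEq V] [DecidableEq V'] (p : Perm V)
    (p' : Perm V') (a : V) (b : V') : wt (Equiv.sumCongr p p') (Sum.inl a) (Sum.inr b) = 0 := by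
  change (if (Sum.inl (p a) : V ⊕ V') = Sum.inr b then 1 else 0) +
    (if (Sum.inr (p' b) : V ⊕ V') = Sum.inl a then 1 else 0) = 0
  rw [if_neg Sum.inl_ne_inr, if_neg Sum.inr_ne_inl]

/- Disjoint unions: K + K', V + V'. Types add up (IsType.sum); weights across are 0. -/
theorem Lft.add {U U' : Multiset ℕ} (h : Lft U) (h' : Lft U') : Lft (U + U') := by
  obtain ⟨K, V, fK, dK, dV, e1, e2, p, hp, hw⟩ := h
  obtain ⟨K', V', fK', dK', dV', e1', e2', p', hp', hw'⟩ := h'
  refine ⟨K ⊕ K', V ⊕ V', inferInstance, inferInstance, inferInstance, Left_e e1 e1',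
    Left_e e2 e2', fun j => Equiv.sumCongr (p j) (p' j), fun j => (hp j).sum (hp' j), ?_⟩
  rintro (a | a) (b | b)
  · rw [Left_k4_ll, Left_k4_ll, hw a b]
    exact Finset.sum_congr rfl fun j _ => (Left_wt_ll _ _ a b).symm
  · rw [Left_k4_lr, Left_k4_lr]
    symm
    exact Finset.sum_eq_zero fun j _ => Left_wt_lr _ _ a b
  · rw [Left_k4_rl, Left_k4_rl]
    symm
    exact Finset.sum_eq_zero fun j _ => by rw [wt_comm, Left_wt_lr]
  · rw [Left_k4_rr, Left_k4_rr, hw' a b]
    exact Finset.sum_congr rfl fun j _ => (Left_wt_rr _ _ a b).symm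

theorem Lft.zero : Lft 0 := by
  refine ⟨Empty, Empty, inferInstance, inferInstance, inferInstance,
    ⟨fun x => x.1, fun x => x.elim, fun x => x.1.elim, fun x => x.elim⟩,
    ⟨fun x => x.1, fun x => x.elim, fun x => x.1.elim, fun x => x.elim⟩, fun _ => 1, ?_, ?_⟩
  · intro _
    exact ⟨Empty, inferInstance, fun _ => 0,
      ⟨fun x => x.1, fun x => x.elim, fun x => x.1.elim, fun x => x.elim⟩, rfl,
      fun i => i.elim⟩
  · intro a
    exact a.elim

private theorem Left_unit (a : ℕ) : Nonempty (Un Unit (fun _ => 4 * (a + 1))) := by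
  induction a with
  | zero => exact un4
  | succ a ih =>
    obtain ⟨u⟩ := ih
    obtain ⟨w⟩ := u.grow ()
    have h : (fun i : Unit => if i = () then 4 * (a + 1) + 4 else 4 * (a + 1)) =
        fun _ => 4 * (a + 1 + 1) := by
      funext i
      rw [if_pos rfl]
      ring
    rw [h] at w
    exact ⟨w⟩

private theorem Left_four (a : ℕ) : Lft {4 * (a + 1)} := by
  obtain ⟨u⟩ := Left_unit a
  exact u.lft

private theorem Left_bool (a b : ℕ) :
    Nonempty (Un Bool (fun i => if i = true then 4 * b + 6 else 4 * a + 6)) := by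
  induction b with
  | zero =>
    induction a with
    | zero =>
      obtain ⟨u⟩ := un66
      have h : (fun _ : Bool => 6) = fun i : Bool => if i = true then 4 * 0 + 6 else 4 * 0 + 6 := by
        funext i
        rw [ite_self]
      rw [h] at u
      exact ⟨u⟩
    | succ a ih =>
      obtain ⟨u⟩ := ih
      obtain ⟨w⟩ := u.grow false
      have h : (fun i : Bool => if i = false then
          (if i = true then 4 * 0 + 6 else 4 * a + 6) + 4 else
          (if i = true then 4 * 0 + 6 else 4 * a + 6)) =
          fun i : Bool => if i = true then 4 * 0 + 6 else 4 * (a + 1) + 6 := by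
        funext i
        cases i
        · simp only [if_true, Bool.false_eq_true, if_false]
          ring
        · simp only [if_true, Bool.true_eq_false, if_false]
      rw [h] at w
      exact ⟨w⟩
  | succ b ih =>
    obtain ⟨u⟩ := ih
    obtain ⟨w⟩ := u.grow true
    have h : (fun i : Bool => if i = true then
        (if i = true then 4 * b + 6 else 4 * a + 6) + 4 else
        (if i = true then 4 * b + 6 else 4 * a + 6)) =
        fun i : Bool => if i = true then 4 * (b + 1) + 6 else 4 * a + 6 := by
      funext i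
      cases i
      · simp only [Bool.false_eq_true, if_false]
      · simp only [if_true]
        ring
    rw [h] at w
    exact ⟨w⟩

private theorem Left_six (a b : ℕ) : Lft {4 * a + 6, 4 * b + 6} := by
  obtain ⟨u⟩ := Left_bool a b
  have h := u.lft
  have h1 : fam (fun i : Bool => if i = true then 4 * b + 6 else 4 * a + 6) =
      {4 * b + 6, 4 * a + 6} := rfl
  rw [h1, Multiset.pair_comm] at h
  exact h

private theorem Left_ind (n : ℕ) : ∀ U : Multiset ℕ, Multiset.card U = n → Bip U → 4 ∣ U.sum →
    Lft U := by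
  induction n using Nat.strong_induction_on with
  | _ n ih =>
    intro U hn hU h4
    by_cases h : ∃ u ∈ U, 4 ∣ u
    · obtain ⟨u, hu, hu4⟩ := h
      obtain ⟨U', rfl⟩ := Multiset.exists_cons_of_mem hu
      rw [Multiset.card_cons] at hn
      rw [Multiset.sum_cons] at h4
      have h1 : Lft U' := ih (Multiset.card U') (by omega) U' rfl
        (fun v hv => hU v (Multiset.mem_cons_of_mem hv)) ((Nat.dvd_add_right hu4).1 h4)
      have h2 := (hU u hu).2
      obtain ⟨a, rfl⟩ := hu4
      obtain ⟨b, rfl⟩ : ∃ b, a = b + 1 := ⟨a - 1, by omega⟩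
      exact (Left_four b).add h1
    · push Not at h
      rcases Multiset.empty_or_exists_mem U with h0 | ⟨u, hu⟩
      · rw [h0]
        exact Lft.zero
      · obtain ⟨U', rfl⟩ := Multiset.exists_cons_of_mem hu
        rw [Multiset.card_cons] at hn
        rw [Multiset.sum_cons] at h4
        have h2 := hU u hu
        have h3 := h u hu
        rcases Multiset.empty_or_exists_mem U' with h0 | ⟨u', hu'⟩
        · rw [h0, Multiset.sum_zero, add_zero] at h4
          exact absurd h4 h3
        · obtain ⟨U'', rfl⟩ := Multiset.exists_cons_of_mem hu'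
          rw [Multiset.card_cons] at hn
          rw [Multiset.sum_cons] at h4
          have h2' := hU u' (Multiset.mem_cons_of_mem hu')
          have h3' := h u' (Multiset.mem_cons_of_mem hu')
          have h5 : Lft U'' := by
            refine ih (Multiset.card U'') (by omega) U'' rfl
              (fun v hv => hU v (Multiset.mem_cons_of_mem (Multiset.mem_cons_of_mem hv))) ?_
            omega
          obtain ⟨a, ha⟩ : ∃ a, u = 4 * a + 6 := ⟨(u - 6) / 4, by omega⟩
          obtain ⟨b, hb⟩ : ∃ b, u' = 4 * b + 6 := ⟨(u' - 6) / 4, by omega⟩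
          have h6 := (Left_six a b).add h5
          rw [← ha, ← hb] at h6
          have h7 : ({u, u'} : Multiset ℕ) + U'' = u ::ₘ u' ::ₘ U'' := by
            rw [Multiset.insert_eq_cons, Multiset.cons_add, Multiset.singleton_add]
          rw [← h7]
          exact h6

/- By un4 and growth: Lft {4 a} for a >= 1; by un66 and growth at false and true:
Lft {4 a + 2, 4 b + 2} for a, b >= 1. Then induction on the number of entries: split off an entry
divisible by 4, or, if there is none, two entries = 2 mod 4 (there are at least two as 4 divides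
the sum); use Lft.add, Lft.zero. -/
theorem left {U : Multiset ℕ} (hU : Bip U) (h4 : 4 ∣ U.sum) : Lft U :=
  Left_ind _ U rfl hU h4

end Pool.Agent.H.Tc55
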