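import Pool.Agent.H.Tc55.LeftD

/-! Unions of two partitions into 4-sets, base units (helper55, MP_0d0865_co). -/

set_option autoImplicit false

namespace Pool.Agent.H.Tc55

open Finset Equiv Pool.Agent.H.Tc26

private theorem LeftA_tra_iff {K V : Type} (e : K × (Bool × Bool) ≃ V) (c : Bool × Bool) (a b : V) :
    tra e c a = b ↔ (e.symm a).1 = (e.symm b).1 ∧ tr c (e.symm a).2 = (e.symm b).2 := by
  rw [tra, Equiv.permCongr_apply, ← Equiv.eq_symm_apply, Prod.ext_iff]
  rfl

private theorem LeftA_tr_iff (c p q : Bool × Bool) : tr c p = q ↔ tr c q = p := by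
  revert c p q; decide

private theorem LeftA_tra_symm {K V : Type} (e : K × (Bool × Bool) ≃ V) (c : Bool × Bool)
    (a b : V) : tra e c a = b ↔ tra e c b = a := by
  rw [LeftA_tra_iff, LeftA_tra_iff, LeftA_tr_iff, eq_comm (a := (e.symm a).1)]

private theorem LeftA_sum1 (p q : Bool × Bool) :
    ∑ j : Fin 3, (if tr (cc j) p = q then 1 else 0) = if p ≠ q then 1 else 0 := by
  revert p q; decide

private theorem LeftA_sum2 (p q : Bool × Bool) :
    ∑ j : Fin 3, (if tr (cc (j + 1)) p = q then 1 else 0) = if p ≠ q then 1 else 0 := by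
  revert p q; decide

private theorem LeftA_k4 {K V : Type} [DecidableEq K] [DecidableEq V]
    (e : K × (Bool × Bool) ≃ V) (a b : V) (f : Fin 3 → Bool × Bool)
    (hf : ∀ p q, ∑ j : Fin 3, (if tr (f j) p = q then 1 else 0) = if p ≠ q then 1 else 0) :
    ∑ j : Fin 3, (if tra e (f j) a = b then 1 else 0) = k4 e a b := by
  have hab : a = b ↔ (e.symm a).1 = (e.symm b).1 ∧ (e.symm a).2 = (e.symm b).2 := by
    rw [← Prod.ext_iff, e.symm.injective.eq_iff]
  unfold k4
  simp only [LeftA_tra_iff]
  by_cases h : (e.symm a).1 = (e.symm b).1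
  · simp only [h, true_and, ne_eq, hab]
    exact hf _ _
  · simp [h]

/- wt (s j) a b = [tra e1 (cc j) a = b] + [tra e2 (cc (j+1)) a = b] (both are involutions which change
the colour, so exactly one end of each of their edges is of colour false resp. true), and the sum
over j of [tra e (cc j) a = b] is k4 e a b. -/
theorem Un.lft {I : Type} [Fintype I] {l : I → ℕ} (u : Un I l) : Lft (fam l) := by
  obtain ⟨K, V, fK, dK, dV, e1, e2, x, s, v, m, h1, h2, hs, hv, hm0, hm⟩ := u
  refine ⟨K, V, fK, dK, dV, e1, e2, s, fun j => ⟨I, inferInstance, l, m j, rfl, hm j⟩, ?_⟩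
  intro a b
  have key : ∀ j, wt (s j) a b = (if tra e1 (cc j) a = b then 1 else 0) +
      (if tra e2 (cc (j + 1)) a = b then 1 else 0) := by
    intro j
    have i1 := LeftA_tra_symm e1 (cc j) a b
    have i2 := LeftA_tra_symm e2 (cc (j + 1)) a b
    have n1 : x j a = x j b → ¬ tra e1 (cc j) a = b := by
      intro h h'
      have := h1 j a
      rw [h', h] at this
      cases hx : x j b <;> simp [hx] at this
    have n2 : x j a = x j b → ¬ tra e2 (cc (j + 1)) a = b := by
      intro h h'
      have := h2 j a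
      rw [h', h] at this
      cases hx : x j b <;> simp [hx] at this
    unfold wt
    rw [hs j a, hs j b]
    cases ha : x j a <;> cases hb : x j b
    · have m1 := n1 (ha.trans hb.symm)
      have m2 := n2 (ha.trans hb.symm)
      have m3 : ¬ tra e1 (cc j) b = a := fun h => m1 (i1.2 h)
      rw [if_neg m1, if_neg m2]
      simp [m1, m3]
    · simp [← i2]
    · simp [← i1, add_comm]
    · have m1 := n1 (ha.trans hb.symm)
      have m2 := n2 (ha.trans hb.symm)
      have m3 : ¬ tra e2 (cc (j + 1)) b = a := fun h => m2 (i2.2 h)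
      rw [if_neg m1, if_neg m2]
      simp [m2, m3]
  rw [Finset.sum_congr rfl fun j _ => key j, Finset.sum_add_distrib,
    LeftA_k4 e1 a b cc LeftA_sum1, LeftA_k4 e2 a b (fun j => cc (j + 1)) LeftA_sum2]

private def LeftA_a4 : Unit × (Bool × Bool) ≃ Fin 4 where
  toFun p := Fin.ofNat 4 (p.2.1.toNat + 2 * p.2.2.toNat)
  invFun i := ((), (i.val % 2 == 1, i.val / 2 == 1))
  left_inv := by unfold Function.LeftInverse; decide
  right_inv := by unfold Function.RightInverse Function.LeftInverse; decide

private def LeftA_x4 : Fin 3 → Fin 4 → Bool :=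
  ![![false, true, true, false], ![false, false, true, true], ![false, true, false, true]]

private def LeftA_s4 (j : Fin 3) : Perm (Fin 4) where
  toFun := (![![1, 3, 0, 2], ![2, 3, 1, 0], ![3, 0, 1, 2]] : Fin 3 → Fin 4 → Fin 4) j
  invFun := (![![2, 0, 3, 1], ![3, 2, 0, 1], ![1, 2, 3, 0]] : Fin 3 → Fin 4 → Fin 4) j
  left_inv := by unfold Function.LeftInverse; revert j; decide
  right_inv := by unfold Function.RightInverse Function.LeftInverse; revert j; decide

private def LeftA_t4 : Fin 3 → Fin 4 → Fin 4 := ![![0, 1, 3, 2], ![0, 2, 1, 3], ![0, 3, 2, 1]]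

private theorem LeftA_b4 (j : Fin 3) :
    Function.Bijective (fun p : (Σ _ : Unit, Fin 4) => LeftA_t4 j p.2) := by
  revert j; decide

private theorem LeftA_c4 : ∀ (j : Fin 3) (y : Fin 4),
    LeftA_s4 j (LeftA_t4 j y) = LeftA_t4 j (y + 1) := by
  decide

/- One 4-set, both partitions equal, v = (f,f); s j is the 4-cycle 0, cc j, cc j + cc (j+1),
cc (j+1); colours false, true, false, true. Everything by decide. -/
theorem un4 : Nonempty (Un Unit (fun _ => 4)) :=
  ⟨{ K := Unit
     V := Fin 4
     fK := inferInstance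
     dK := inferInstance
     dV := inferInstance
     e1 := LeftA_a4
     e2 := LeftA_a4
     x := LeftA_x4
     s := LeftA_s4
     v := fun _ => 0
     m := fun j => Equiv.ofBijective (fun p : (Σ _ : Unit, Fin 4) => LeftA_t4 j p.2) (LeftA_b4 j)
     h1 := by decide
     h2 := by decide
     hs := by decide
     hv := by decide
     hm0 := by
       intro j _
       exact (by decide : ∀ j : Fin 3, LeftA_t4 j 0 = 0) j
     hm := fun j _ y => LeftA_c4 j y }⟩

private def LeftA_a6 : Fin 3 × (Bool × Bool) ≃ Fin 12 where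
  toFun p := Fin.ofNat 12 (4 * p.1.val + p.2.1.toNat + 2 * p.2.2.toNat)
  invFun i := (Fin.ofNat 3 (i.val / 4), (i.val % 2 == 1, (i.val / 2) % 2 == 1))
  left_inv := by unfold Function.LeftInverse; decide
  right_inv := by unfold Function.RightInverse Function.LeftInverse; decide

private def LeftA_p6 : Perm (Fin 12) where
  toFun := ![7, 9, 4, 11, 0, 1, 10, 8, 3, 6, 5, 2]
  invFun := ![4, 5, 11, 8, 2, 10, 9, 0, 7, 1, 6, 3]
  left_inv := by unfold Function.LeftInverse; decide
  right_inv := by unfold Function.RightInverse Function.LeftInverse; decide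

private def LeftA_x6 : Fin 3 → Fin 12 → Bool :=
  ![![false, true, true, false, false, true, false, true, false, true, true, false],
    ![false, true, true, false, false, false, true, true, true, true, false, false],
    ![false, true, false, true, false, true, false, true, false, false, true, true]]

private def LeftA_s6 (j : Fin 3) : Perm (Fin 12) where
  toFun := (![![1, 8, 6, 2, 5, 3, 7, 4, 9, 11, 0, 10], ![2, 10, 3, 1, 6, 7, 5, 11, 0, 4, 8, 9],
    ![3, 0, 1, 6, 7, 2, 5, 9, 11, 10, 8, 4]] : Fin 3 → Fin 12 → Fin 12) j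
  invFun := (![![10, 0, 3, 5, 7, 4, 2, 6, 1, 8, 11, 9], ![8, 3, 0, 2, 9, 6, 4, 5, 10, 11, 1, 7],
    ![1, 2, 5, 0, 11, 6, 3, 4, 10, 7, 9, 8]] : Fin 3 → Fin 12 → Fin 12) j
  left_inv := by unfold Function.LeftInverse; revert j; decide
  right_inv := by unfold Function.RightInverse Function.LeftInverse; revert j; decide

private def LeftA_t6 : Fin 3 → Bool → Fin 6 → Fin 12 :=
  ![fun b => if b then ![4, 5, 3, 2, 6, 7] else ![0, 1, 8, 9, 11, 10],
    fun b => if b then ![4, 6, 5, 7, 11, 9] else ![0, 2, 3, 1, 10, 8],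
    fun b => if b then ![4, 7, 9, 10, 8, 11] else ![0, 3, 6, 5, 2, 1]]

private theorem LeftA_b6 (j : Fin 3) :
    Function.Bijective (fun p : (Σ _ : Bool, Fin 6) => LeftA_t6 j p.1 p.2) := by
  revert j; decide +kernel

private theorem LeftA_c6 : ∀ (j : Fin 3) (b : Bool) (y : Fin 6),
    LeftA_s6 j (LeftA_t6 j b y) = LeftA_t6 j b (y + 1) := by
  decide

/- 12 points Fin 3 x (Bool x Bool), numbered 4 * block + (0, 1, 2, 3 for (f,f), (t,f), (f,t), (t,t)):
e1 = identity, e2 = the permutation psi = [7, 9, 4, 11, 0, 1, 10, 8, 3, 6, 5, 2] (i |-> psi i),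
v false = 0, v true = 4. For j = 0, 1, 2 (translations cc j in e1, cc (j+1) in psi-conjugate) all
three permutations have two cycles of length 6, 0 in one and 4 in the other; the colours are
determined by colour(0) = colour(4) = false; they are, for j = 0, 1, 2 and the points 0, ..., 11,
[0,1,1,0,0,1,0,1,0,1,1,0], [0,1,1,0,0,0,1,1,1,1,0,0], [0,1,0,1,0,1,0,1,0,0,1,1] (1 = true).
(Checked by computer, /team-store/h55_0d0865_un66.py.) Everything by decide; take for m j the map
<i, y> |-> (s j)^y (v i). -/
theorem un66 : Nonempty (Un Bool (fun _ => 6)) :=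
  ⟨{ K := Fin 3
     V := Fin 12
     fK := inferInstance
     dK := inferInstance
     dV := inferInstance
     e1 := LeftA_a6
     e2 := LeftA_a6.trans LeftA_p6
     x := LeftA_x6
     s := LeftA_s6
     v := fun b => if b then 4 else 0
     m := fun j => Equiv.ofBijective (fun p : (Σ _ : Bool, Fin 6) => LeftA_t6 j p.1 p.2) (LeftA_b6 j)
     h1 := by decide
     h2 := by decide
     hs := by decide
     hv := by decide
     hm0 := by
       intro j b
       exact (by decide : ∀ (j : Fin 3) (b : Bool), LeftA_t6 j b 0 = if b then 4 else 0) j b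
     hm := fun j b y => LeftA_c6 j b y }⟩

end Pool.Agent.H.Tc55
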