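import Pool.Agent.H.Tc55.Defs

/-! Unions of two partitions into 4-sets: definitions (helper55, MP_0d0865_co). -/

set_option autoImplicit false

namespace Pool.Agent.H.Tc55

open Finset Equiv Pool.Agent.H.Tc26

/-- The cyclic shift of the three nonzero elements of `Bool × Bool`, indexed by `Fin 3`:
`cc 0 = (t,f)`, `cc 1 = (f,t)`, `cc 2 = (t,t)`. -/
def cc (j : Fin 3) : Bool × Bool :=
  if j = 0 then (true, false) else if j = 1 then (false, true) else (true, true)

/-- Translation of `Bool × Bool`. -/
def tr (c : Bool × Bool) : Perm (Bool × Bool) where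
  toFun x := (xor x.1 c.1, xor x.2 c.2)
  invFun x := (xor x.1 c.1, xor x.2 c.2)
  left_inv := by rintro ⟨x, y⟩; simp
  right_inv := by rintro ⟨x, y⟩; simp

/-- Translation by `c` inside every 4-set of the partition `e`. -/
def tra {K V : Type} (e : K × (Bool × Bool) ≃ V) (c : Bool × Bool) : Perm V :=
  e.permCongr (Equiv.prodCongr (Equiv.refl K) (tr c))

/-- A unit: two partitions of `V` into 4-sets and, for each `j`, a colouring `x j` which both the
translation by `cc j` in the first and the translation by `cc (j + 1)` in the second partition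
change, such that the permutation `s j` (first translation on colour false, second one on colour
true) has one cycle of length `l i` through `v i` for each `i : I`, and `v i` has colour false. -/
structure Un (I : Type) (l : I → ℕ) where
  K : Type
  V : Type
  fK : Fintype K
  dK : DecidableEq K
  dV : DecidableEq V
  e1 : K × (Bool × Bool) ≃ V
  e2 : K × (Bool × Bool) ≃ V
  x : Fin 3 → V → Bool
  s : Fin 3 → Perm V
  v : I → V
  m : Fin 3 → ((Σ i, ZMod (l i)) ≃ V)
  h1 : ∀ j a, x j (tra e1 (cc j) a) = !x j a
  h2 : ∀ j a, x j (tra e2 (cc (j + 1)) a) = !x j a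
  hs : ∀ j a, s j a = if x j a then tra e2 (cc (j + 1)) a else tra e1 (cc j) a
  hv : ∀ j i, x j (v i) = false
  hm0 : ∀ j i, m j ⟨i, 0⟩ = v i
  hm : ∀ j i y, s j (m j ⟨i, y⟩) = m j ⟨i, y + 1⟩

end Pool.Agent.H.Tc55
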