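import Pool.Agent.H.Tc55.Fin
import Pool.Agent.H.Tc26.Bases

/-! The Haggkvist type theorem for tight cycle factors (helper55, MP_0d0865_co). -/

set_option autoImplicit false

namespace Pool.Agent.H.Tc55

open Finset Equiv Pool.Agent.H.Tc26

theorem Main_val_map {I : Type} (s : Finset I) (f : I → ℕ) :
    s.val.map f = ∑ i ∈ s, ({f i} : Multiset ℕ) := by
  rw [Finset.sum]
  have h : (s.val.map fun i => ({f i} : Multiset ℕ)) =
      (s.val.map f).map fun a => ({a} : Multiset ℕ) := by
    rw [Multiset.map_map]; rfl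
  rw [h, Multiset.sum_map_singleton]

theorem Main_fiber {m w : ℕ} (l : Fin m → ℕ) (g : Fin m → Fin w) :
    ∑ j, (Finset.univ.filter fun i => g i = j).val.map l = fam l := by
  rw [fam, Main_val_map]
  simp only [Main_val_map]
  exact Finset.sum_fiberwise Finset.univ g fun i => ({l i} : Multiset ℕ)

theorem Dec_general {c w a m : ℕ} (hc : 0 < c) (h4 : 4 ∣ c) (hw : 0 < w) (l : Fin m → ℕ)
    (base : Dec (c * w) (fun _ : Fin w => c)) (h8 : ∀ i, 8 ≤ l i) (hl : ∀ i, c ∣ l i)
    (g : Fin m → Fin w) (hg : ∀ j, ∑ i ∈ Finset.univ.filter (fun i => g i = j), l i = c * 2 ^ a) :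
    Dec (c * w * 2 ^ a) l := by
  have : NeZero (2 ^ a) := ⟨by positivity⟩
  have hP : P3 (Fin (c * w)) (Multiset.replicate w c) := by
    have h1 := base.toP3 (fun _ => hc) (by simp; ring)
    have h2 : fam (fun _ : Fin w => c) = Multiset.replicate w c := by
      rw [fam, Multiset.map_const']; simp
    rwa [h2] at h1
  have hcl : ∀ i, c * (l i / c) = l i := fun i => Nat.mul_div_cancel' (hl i)
  let lam : Fin w → Multiset ℕ := fun j =>
    (Finset.univ.filter fun i => g i = j).val.map fun i => l i / c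
  have hlam : ∀ j, (lam j).sum = 2 ^ a := by
    intro j
    have h1 : c * (lam j).sum = c * 2 ^ a := by
      rw [← hg j]
      change c * ∑ i ∈ Finset.univ.filter (fun i => g i = j), l i / c = _
      rw [Finset.mul_sum]
      exact Finset.sum_congr rfl fun i _ => hcl i
    exact Nat.eq_of_mul_eq_mul_left hc h1
  have hpos : ∀ j, ∀ x ∈ lam j, 0 < x := by
    intro j x hx
    obtain ⟨i, -, rfl⟩ := Multiset.mem_map.1 hx
    have h1 := hcl i
    have h2 := h8 i
    rcases Nat.eq_zero_or_pos (l i / c) with h3 | h3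
    · rw [h3] at h1; omega
    · exact h3
  have htop := top h4 hc hP lam hlam hpos
  have hfam : ∑ j, (lam j).map (c * ·) = fam l := by
    rw [← Main_fiber l g]
    refine Finset.sum_congr rfl fun j _ => ?_
    rw [Multiset.map_map]
    refine Multiset.map_congr rfl fun i _ => ?_
    exact hcl i
  rw [hfam] at htop
  have heven : ∀ x ∈ fam l, 2 ∣ x ∧ 8 ≤ x := by
    intro x hx
    obtain ⟨i, -, rfl⟩ := Multiset.mem_map.1 hx
    exact ⟨((by norm_num : 2 ∣ 4).trans h4).trans (hl i), h8 i⟩
  have h4' : ∀ x ∈ fam l, 4 ∣ x := by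
    intro x hx
    obtain ⟨i, -, rfl⟩ := Multiset.mem_map.1 hx
    exact h4.trans (hl i)
  let U : Multiset ℕ := (fam l).map (· / 2)
  have hU2 : U.map (2 * ·) = fam l := by
    change ((fam l).map (· / 2)).map (2 * ·) = fam l
    rw [Multiset.map_map]
    conv_rhs => rw [← Multiset.map_id (fam l)]
    refine Multiset.map_congr rfl fun x hx => ?_
    exact Nat.mul_div_cancel' (heven x hx).1
  have hU : Bip U := by
    intro u hu
    obtain ⟨x, hx, rfl⟩ := Multiset.mem_map.1 hu
    obtain ⟨y, rfl⟩ := h4' x hx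
    have := (heven _ hx).2
    refine ⟨⟨y, by omega⟩, by omega⟩
  have hUs : U.sum * 2 = Fintype.card (Fin (c * w)) * 2 ^ a := by
    have h1 : (U.map (2 * ·)).sum = 2 * U.sum := by
      rw [Multiset.sum_map_mul_left, Multiset.map_id']
    rw [mul_comm U.sum, ← h1, hU2, Fintype.card_fin]
    change ∑ i, l i = _
    rw [← Finset.sum_fiberwise Finset.univ g l, Finset.sum_congr rfl fun j _ => hg j,
      Finset.sum_const, Finset.card_univ, Fintype.card_fin, smul_eq_mul]
    ring
  rw [← hU2] at htop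
  have h0 : 0 < Fintype.card (Fin (c * w)) := by rw [Fintype.card_fin]; positivity
  have h1 := climb a (by rw [Fintype.card_fin]; exact Dvd.dvd.mul_right h4 w) h0 hU hUs htop
    (Fin (c * w * 2 ^ a)) (by rw [Fintype.card_fin, Fintype.card_fin])
  rw [hU2] at h1
  exact h1.toDec

end Pool.Agent.H.Tc55
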