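import Pool.Agent.H.Tc55.Defs

/-! Zigzag Hamilton decompositions (helper55, MP_0d0865_co). -/

set_option autoImplicit false

namespace Pool.Agent.H.Tc55

open Finset Equiv Pool.Agent.H.Tc26

/- Everything is in Pool/Agent/H/Tc26/Zig.lean: zig k, zig_type k : IsType (zig k) {2 * k + 2}, and
inside the proof of KdOn.leaf the arcs k1, k2, k3 of the translate by g. Copy these proofs. -/

/-- The translate by `g` of the zigzag Hamilton cycle. -/
def zg (k : ℕ) (g : ZMod (2 * k + 1)) : Perm (Option (ZMod (2 * k + 1))) :=
  (Equiv.optionCongr (Equiv.addRight g)).permCongr (zig k)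

theorem zg_type (k : ℕ) (g : ZMod (2 * k + 1)) : IsType (zg k g) {2 * k + 2} :=
  (zig_type k).conj _

private theorem Zg_k1 (k : ℕ) (g : ZMod (2 * k + 1)) (b : Option (ZMod (2 * k + 1))) :
    zg k g none = b ↔ b = some g := by
  unfold zg
  rw [Equiv.permCongr_apply]
  change (Equiv.optionCongr (Equiv.addRight g)) (zig k none) = b ↔ _
  rw [zig_none]
  simp [eq_comm]

private theorem Zg_k2 (k : ℕ) (g y : ZMod (2 * k + 1)) :
    zg k g (some y) = none ↔ (y - g).val = k := by
  unfold zg
  rw [Equiv.permCongr_apply]
  change (Equiv.optionCongr (Equiv.addRight g)) (zig k (some (y + -g))) = none ↔ _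
  rw [zig_some, ← sub_eq_add_neg]
  split_ifs with h1 h2
  · simp only [Equiv.optionCongr_apply, Option.map_some, reduceCtorEq, false_iff]; omega
  · simp [h2]
  · simp [h2]

private theorem Zg_k3 (k : ℕ) (g y z : ZMod (2 * k + 1)) :
    zg k g (some y) = some z ↔
      ((y - g).val < k ∧ 2 * g = y + z + 1) ∨ (k < (y - g).val ∧ 2 * g = y + z) := by
  unfold zg
  rw [Equiv.permCongr_apply]
  change (Equiv.optionCongr (Equiv.addRight g)) (zig k (some (y + -g))) = some z ↔ _
  rw [zig_some, ← sub_eq_add_neg]
  split_ifs with h1 h2
  · have h3 : ¬ k < (y - g).val := by omega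
    simp only [Equiv.optionCongr_apply, Option.map_some, Equiv.coe_addRight, Option.some.injEq,
      h1, h3, true_and, false_and, or_false]
    constructor
    · intro h; linear_combination h
    · intro h; linear_combination h
  · simp only [Equiv.optionCongr_apply, Option.map_none, reduceCtorEq, false_iff]
    omega
  · have h3 : k < (y - g).val := by omega
    simp only [Equiv.optionCongr_apply, Option.map_some, Equiv.coe_addRight, Option.some.injEq,
      h1, h3, true_and, false_and, false_or]
    constructor
    · intro h; linear_combination h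
    · intro h; linear_combination h

private theorem Zg_k4 (k : ℕ) (x : ZMod (2 * k + 1)) : x.val = k ↔ x = k := by
  have hk : ((k : ZMod (2 * k + 1))).val = k := by
    rw [ZMod.val_natCast, Nat.mod_eq_of_lt (by omega)]
  constructor
  · intro h; rw [← ZMod.natCast_zmod_val x, h]
  · rintro rfl; exact hk

/- none -> some g, some y -> none iff y = g + k. -/
theorem wt_zg_none (k : ℕ) (g y : ZMod (2 * k + 1)) :
    wt (zg k g) none (some y) = (if y = g then 1 else 0) + (if y = g + k then 1 else 0) := by
  have h1 : zg k g none = some y ↔ y = g := by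
    rw [Zg_k1, Option.some.injEq]
  have h2 : zg k g (some y) = none ↔ y = g + k := by
    rw [Zg_k2, Zg_k4]
    constructor
    · intro h; linear_combination h
    · intro h; linear_combination h
  unfold wt
  simp only [h1, h2]

/- For y <> z the edge y z is used (once) iff y + z = 2 g or y + z = 2 g - 1: from k3; if y + z = 2 g
then z - g = -(y - g), not 0, so exactly one of the two values is > k; if y + z = 2 g - 1 then
z - g = -(y - g) - 1, the values add up to 2 k, and they are not both k as y <> z. -/
theorem wt_zg_some (k : ℕ) (g y z : ZMod (2 * k + 1)) :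
    wt (zg k g) (some y) (some z) =
      if y = z then 0 else if y + z = 2 * g ∨ y + z = 2 * g - 1 then 1 else 0 := by
  unfold wt
  simp only [Zg_k3]
  by_cases hyz : y = z
  · subst hyz
    rw [if_pos rfl, if_neg]
    rintro (⟨h1, h2⟩ | ⟨h1, h2⟩)
    · have e := Zig_neg_one k (y - g)
      have e1 : -(y - g) - 1 = y - g := by linear_combination h2
      rw [e1] at e
      omega
    · have e1 : y - g = 0 := by
        have h3 := (Zig_eq_half k _ _).1 h2
        have h4 := Zig_half k
        linear_combination (-1 : ZMod (2 * k + 1)) * h3 - y * h4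
      rw [e1] at h1
      simp at h1
  · rw [if_neg hyz]
    have hone : (1 : ZMod (2 * k + 1)) ≠ 0 := by
      intro h
      apply hyz
      have : y - z = (y - z) * 1 := by ring
      rw [h, mul_zero] at this
      exact sub_eq_zero.mp this
    by_cases hA : 2 * g = y + z
    · have hB : ¬ 2 * g = y + z + 1 := by
        intro h
        apply hone
        linear_combination hA - h
      have hA' : 2 * g = z + y := by rw [hA]; ring
      have hB' : ¬ 2 * g = z + y + 1 := by
        intro h
        apply hB
        rw [h]; ring
      have hy0 : y - g ≠ 0 := by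
        intro h
        apply hyz
        linear_combination (2 : ZMod (2 * k + 1)) * h + hA
      have e1 : z - g = -(y - g) := by linear_combination (-1 : ZMod (2 * k + 1)) * hA
      have e2 := Zig_neg k hy0
      rw [← e1] at e2
      have e3 := ZMod.val_lt (y - g)
      have e4 : (y - g).val ≠ 0 := by
        intro h
        exact hy0 ((ZMod.val_eq_zero _).1 h)
      rw [if_pos (Or.inl hA.symm)]
      by_cases hc : k < (y - g).val
      · rw [if_pos (Or.inr ⟨hc, hA⟩), if_neg]
        rintro (⟨h1, h2⟩ | ⟨h1, h2⟩)
        · exact hB' h2
        · omega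
      · rw [if_neg, if_pos (Or.inr ⟨by omega, hA'⟩)]
        rintro (⟨h1, h2⟩ | ⟨h1, h2⟩)
        · exact hB h2
        · omega
    · by_cases hB : 2 * g = y + z + 1
      · have hA' : ¬ 2 * g = z + y := by
          intro h
          apply hA
          rw [h]; ring
        have hB' : 2 * g = z + y + 1 := by rw [hB]; ring
        have e1 : z - g = -(y - g) - 1 := by linear_combination (-1 : ZMod (2 * k + 1)) * hB
        have e2 := Zig_neg_one k (y - g)
        rw [← e1] at e2
        have e3 : (z - g).val ≠ (y - g).val := Zig_ne k fun h => hyz (by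
          linear_combination (-1 : ZMod (2 * k + 1)) * h)
        have e7 := ZMod.val_lt (y - g)
        rw [if_pos (Or.inr (by rw [hB]; ring) : y + z = 2 * g ∨ y + z = 2 * g - 1)]
        by_cases hc : (y - g).val < k
        · rw [if_pos (Or.inl ⟨hc, hB⟩), if_neg]
          rintro (⟨h1, h2⟩ | ⟨h1, h2⟩)
          · omega
          · exact hA' h2
        · rw [if_neg, if_pos (Or.inl ⟨by omega, hB'⟩)]
          rintro (⟨h1, h2⟩ | ⟨h1, h2⟩)
          · omega
          · exact hA h2
      · rw [if_neg, if_neg, if_neg]
        · rintro (h | h)
          · exact hA h.symm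
          · apply hB
            rw [h]; ring
        · rintro (⟨h1, h2⟩ | ⟨h1, h2⟩)
          · apply hB
            rw [h2]; ring
          · apply hA
            rw [h2]; ring
        · rintro (⟨h1, h2⟩ | ⟨h1, h2⟩)
          · exact hB h2
          · exact hA h2

theorem wt_zg_none_none (k : ℕ) (g : ZMod (2 * k + 1)) : wt (zg k g) none none = 0 := by
  have h1 : ¬ zg k g none = none := by
    rw [Zg_k1]
    simp
  unfold wt
  rw [if_neg h1]

/- Sum over all g: for y <> z there are exactly two g with 2 g = y + z or 2 g = y + z + 1 (2 is
invertible, Zig_eq_half); for none the values g = y and g = y - k. k = 0 is allowed (then the only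
permutation is the swap of two points, weight 2). -/
theorem ham2 (k : ℕ) :
    DG (fun a b : Option (ZMod (2 * k + 1)) => if a = b then 0 else 2) {2 * k + 2} := by
  refine ⟨ZMod (2 * k + 1), inferInstance, zg k, zg_type k, ?_⟩
  have key : ∀ y : ZMod (2 * k + 1), ∑ g, wt (zg k g) none (some y) = 2 := by
    intro y
    have h1 : ∀ g : ZMod (2 * k + 1), wt (zg k g) none (some y) =
        (if g = y then 1 else 0) + (if g = y - k then 1 else 0) := by
      intro g
      rw [wt_zg_none]
      congr 1
      · exact if_congr eq_comm rfl rfl
      · refine if_congr ⟨fun h => ?_, fun h => ?_⟩ rfl rfl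
        · rw [h]; ring
        · rw [h]; ring
    simp only [h1, Finset.sum_add_distrib, Finset.sum_ite_eq', Finset.mem_univ, if_true]
  rintro (_ | y) (_ | z)
  · simp [wt_zg_none_none]
  · simp [key]
  · simp only [wt_comm _ (some y) none, key]
    simp
  · simp only [Option.some.injEq, wt_zg_some]
    by_cases hyz : y = z
    · simp [hyz]
    · simp only [if_neg hyz]
      have hone : (1 : ZMod (2 * k + 1)) ≠ 0 := by
        intro h
        apply hyz
        have : y - z = (y - z) * 1 := by ring
        rw [h, mul_zero] at this
        exact sub_eq_zero.mp this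
      have h1 : ∀ g : ZMod (2 * k + 1),
          (if y + z = 2 * g ∨ y + z = 2 * g - 1 then 1 else 0 : ℕ) =
          (if g = (y + z) * (k + 1) then 1 else 0) +
          (if g = (y + z + 1) * (k + 1) then 1 else 0) := by
        intro g
        have e1 : y + z = 2 * g ↔ g = (y + z) * (k + 1) := by
          rw [← Zig_eq_half, eq_comm]
        have e2 : y + z = 2 * g - 1 ↔ g = (y + z + 1) * (k + 1) := by
          rw [← Zig_eq_half]
          constructor
          · intro h; rw [h]; ring
          · intro h; rw [h]; ring
        rw [if_congr (or_congr e1 e2) rfl rfl]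
        by_cases h3 : g = (y + z) * (k + 1)
        · have h4 : ¬ g = (y + z + 1) * (k + 1) := by
            intro h
            apply hone
            have h5 := (Zig_eq_half k _ _).2 h3
            have h6 := (Zig_eq_half k _ _).2 h
            linear_combination h5 - h6
          rw [if_pos (Or.inl h3), if_pos h3, if_neg h4]
        · by_cases h4 : g = (y + z + 1) * (k + 1)
          · rw [if_pos (Or.inr h4), if_neg h3, if_pos h4]
          · rw [if_neg (by rintro (h | h); exacts [h3 h, h4 h]), if_neg h3, if_neg h4]
      simp only [h1, Finset.sum_add_distrib, Finset.sum_ite_eq', Finset.mem_univ, if_true]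

/-- The 1-factor of sum 0. -/
def Jf (k : ℕ) : Option (ZMod (2 * k + 1)) → Option (ZMod (2 * k + 1))
  | none => some 0
  | some x => if x = 0 then none else some (-x)

private theorem Zg_sum_fin (k m : ℕ) :
    ∑ j : Fin k, (if (j : ℕ) = m then 1 else 0 : ℕ) = if m < k then 1 else 0 := by
  by_cases h : m < k
  · rw [if_pos h, Finset.sum_eq_single (⟨m, h⟩ : Fin k)]
    · simp
    · intro j _ hj
      rw [if_neg]
      intro h'
      exact hj (Fin.ext h')
    · intro h'
      exact absurd (Finset.mem_univ _) h'
  · rw [if_neg h]
    refine Finset.sum_eq_zero fun j _ => ?_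
    rw [if_neg]
    intro h'
    have := j.2
    omega

private theorem Zg_eq_cast (k : ℕ) (x : ZMod (2 * k + 1)) (m : ℕ) (hm : m < 2 * k + 1) :
    x = (m : ZMod (2 * k + 1)) ↔ x.val = m := by
  constructor
  · rintro rfl
    rw [ZMod.val_natCast, Nat.mod_eq_of_lt hm]
  · intro h
    rw [← ZMod.natCast_zmod_val x, h]

/- Take the translates by g = 1, ..., k only (J = Fin k, g = j + 1). The sums 2 g - 1, 2 g run
through 1, ..., 2 k, i.e. through every nonzero element of ZMod (2k+1) once; for none the values g
and g + k, i.e. again every nonzero element once. So a b is used once iff a <> b and b <> Jf k a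
(for a = some y, b = some z, y <> z: b = Jf k a iff y + z = 0). -/
theorem ham1 (k : ℕ) :
    DG (fun a b : Option (ZMod (2 * k + 1)) => if a = b ∨ b = Jf k a then 0 else 1)
      {2 * k + 2} := by
  refine ⟨Fin k, inferInstance, fun j => zg k (((j : ℕ) + 1 : ℕ) : ZMod (2 * k + 1)),
    fun j => zg_type k _, ?_⟩
  have key : ∀ y : ZMod (2 * k + 1),
      ∑ j : Fin k, wt (zg k (((j : ℕ) + 1 : ℕ) : ZMod (2 * k + 1))) none (some y) =
        if y = 0 then 0 else 1 := by
    intro y
    have hy := ZMod.val_lt y
    have h1 : ∀ j : Fin k, wt (zg k (((j : ℕ) + 1 : ℕ) : ZMod (2 * k + 1))) none (some y) =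
        (if (j : ℕ) + 1 = y.val then 1 else 0) + (if (j : ℕ) + 1 + k = y.val then 1 else 0) := by
      intro j
      have hj := j.2
      rw [wt_zg_none]
      congr 1
      · refine if_congr ?_ rfl rfl
        rw [Zg_eq_cast k y _ (by omega), eq_comm]
      · refine if_congr ?_ rfl rfl
        rw [← Nat.cast_add, Zg_eq_cast k y _ (by omega), eq_comm]
    simp only [h1, Finset.sum_add_distrib]
    by_cases hy0 : y = 0
    · rw [if_pos hy0, hy0]
      simp
    · rw [if_neg hy0]
      have hv : y.val ≠ 0 := fun h => hy0 ((ZMod.val_eq_zero y).1 h)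
      have h2 : ∀ j : Fin k, (if (j : ℕ) + 1 = y.val then 1 else 0 : ℕ) =
          if (j : ℕ) = y.val - 1 then 1 else 0 := by
        intro j
        refine if_congr ?_ rfl rfl
        omega
      by_cases hk : y.val ≤ k
      · have h3 : ∀ j : Fin k, (if (j : ℕ) + 1 + k = y.val then 1 else 0 : ℕ) = 0 := by
          intro j
          rw [if_neg]
          omega
        simp only [h2, h3, Zg_sum_fin, Finset.sum_const_zero, add_zero]
        rw [if_pos (by omega)]
      · have h3 : ∀ j : Fin k, (if (j : ℕ) + 1 + k = y.val then 1 else 0 : ℕ) =
            if (j : ℕ) = y.val - 1 - k then 1 else 0 := by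
          intro j
          refine if_congr ?_ rfl rfl
          omega
        simp only [h2, h3, Zg_sum_fin]
        rw [if_neg (by omega), if_pos (by omega)]
  rintro (_ | y) (_ | z)
  · simp [wt_zg_none_none]
  · rw [key]
    simp [Jf]
  · simp only [wt_comm _ (some y) none, key]
    by_cases hy : y = 0
    · simp [Jf, hy]
    · simp [Jf, hy]
  · simp only [wt_zg_some]
    by_cases hyz : y = z
    · simp [hyz]
    · simp only [if_neg hyz]
      have hJ : (some y = some z ∨ some z = Jf k (some y)) ↔ y + z = 0 := by
        simp only [Option.some.injEq, hyz, false_or, Jf]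
        by_cases hy : y = 0
        · rw [if_pos hy, hy, zero_add]
          constructor
          · intro h; exact absurd h (by simp)
          · intro h
            exfalso
            apply hyz
            rw [hy, h]
        · rw [if_neg hy, Option.some.injEq]
          constructor
          · intro h; rw [h]; ring
          · intro h; linear_combination h
      rw [if_congr hJ rfl rfl]
      have hs := ZMod.val_lt (y + z)
      have h1 : ∀ j : Fin k,
          (if y + z = 2 * (((j : ℕ) + 1 : ℕ) : ZMod (2 * k + 1)) ∨
            y + z = 2 * (((j : ℕ) + 1 : ℕ) : ZMod (2 * k + 1)) - 1 then 1 else 0 : ℕ) =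
          if (y + z).val = 2 * (j : ℕ) + 2 ∨ (y + z).val = 2 * (j : ℕ) + 1 then 1 else 0 := by
        intro j
        have hj := j.2
        refine if_congr (or_congr ?_ ?_) rfl rfl
        · rw [← Zg_eq_cast k (y + z) _ (by omega)]
          push_cast
          constructor
          · intro h; rw [h]; ring
          · intro h; rw [h]; ring
        · rw [← Zg_eq_cast k (y + z) _ (by omega)]
          push_cast
          constructor
          · intro h; rw [h]; ring
          · intro h; rw [h]; ring
      simp only [h1]
      by_cases h0 : y + z = 0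
      · rw [if_pos h0, h0]
        simp
      · rw [if_neg h0]
        have hv : (y + z).val ≠ 0 := fun h => h0 ((ZMod.val_eq_zero _).1 h)
        have h2 : ∀ j : Fin k,
            (if (y + z).val = 2 * (j : ℕ) + 2 ∨ (y + z).val = 2 * (j : ℕ) + 1 then 1 else 0 : ℕ) =
            if (j : ℕ) = ((y + z).val - 1) / 2 then 1 else 0 := by
          intro j
          refine if_congr ?_ rfl rfl
          omega
        simp only [h2, Zg_sum_fin]
        rw [if_pos (by omega)]

/- The pairs of the 1-factor: (0, false) -> some 0, (0, true) -> none, (j, false) -> some j,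
(j, true) -> some (-j) for 1 <= j <= k. -/
theorem Jf_pairs (k : ℕ) : ∃ e : Fin (k + 1) × Bool ≃ Option (ZMod (2 * k + 1)),
    ∀ a b, (e.symm a).1 = (e.symm b).1 ↔ a = b ∨ b = Jf k a := by
  let ix : Option (ZMod (2 * k + 1)) → Fin (k + 1) × Bool := fun a => match a with
    | none => (0, true)
    | some x => if h : x.val ≤ k then (⟨x.val, by omega⟩, false)
        else (⟨2 * k + 1 - x.val, by omega⟩, true)
  let fw : Fin (k + 1) × Bool → Option (ZMod (2 * k + 1)) := fun p =>
    if (p.1 : ℕ) = 0 then (if p.2 then none else some 0)
    else if p.2 then some (-((p.1 : ℕ) : ZMod (2 * k + 1)))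
    else some ((p.1 : ℕ) : ZMod (2 * k + 1))
  have hval : ∀ m : ℕ, m < 2 * k + 1 → ((m : ZMod (2 * k + 1))).val = m := by
    intro m hm
    rw [ZMod.val_natCast, Nat.mod_eq_of_lt hm]
  have hl : Function.LeftInverse ix fw := by
    rintro ⟨⟨m, hm⟩, b⟩
    have hv := hval m (by omega)
    by_cases h0 : m = 0
    · subst h0
      cases b
      · simp [ix, fw]
      · simp [ix, fw]
    · have hne : (m : ZMod (2 * k + 1)) ≠ 0 := by
        intro h
        rw [h] at hv
        simp at hv
        exact h0 hv.symm
      cases b
      · simp only [ix, fw, h0, if_false, Bool.false_eq_true]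
        rw [dif_pos (by omega)]
        simp [hv]
      · have hn := Zig_neg k hne
        rw [hv] at hn
        simp only [ix, fw, h0, if_false, if_true]
        rw [dif_neg (by omega)]
        simp only [hn, Prod.mk.injEq, and_true, Fin.mk.injEq]
        omega
  have hr : Function.RightInverse ix fw := by
    rintro (_ | x)
    · simp [ix, fw]
    · by_cases h : x.val ≤ k
      · simp only [ix, fw, h, dif_pos, Bool.false_eq_true, if_false]
        by_cases h0 : x.val = 0
        · rw [if_pos h0, (ZMod.val_eq_zero x).1 h0]
        · rw [if_neg h0, ZMod.natCast_zmod_val]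
      · have hx := ZMod.val_lt x
        have hx0 : x ≠ 0 := by
          rintro rfl
          simp at h
        simp only [ix, fw, h, dif_neg, not_false_eq_true, if_true]
        rw [if_neg (by omega), ← Zig_neg k hx0, ZMod.natCast_zmod_val, neg_neg]
  refine ⟨⟨fw, ix, hl, hr⟩, ?_⟩
  intro a b
  change (ix a).1 = (ix b).1 ↔ _
  have hix : ∀ x : ZMod (2 * k + 1), ((ix (some x)).1 : ℕ) =
      if x.val ≤ k then x.val else 2 * k + 1 - x.val := by
    intro x
    simp only [ix]
    split_ifs with h
    · rfl
    · rfl
  have hix0 : ((ix none).1 : ℕ) = 0 := rfl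
  rw [Fin.ext_iff]
  rcases a with _ | y
  · rcases b with _ | z
    · simp
    · rw [hix0, hix]
      have hz := ZMod.val_lt z
      simp only [Jf, Option.some.injEq, reduceCtorEq, false_or]
      rw [← ZMod.val_eq_zero]
      split_ifs with h
      · exact eq_comm
      · constructor
        · intro h'; omega
        · intro h'; omega
  · rcases b with _ | z
    · rw [hix0, hix]
      have hy := ZMod.val_lt y
      simp only [Jf, reduceCtorEq, false_or]
      have h3 : (none = if y = 0 then none else some (-y)) ↔ y.val = 0 := by
        rw [ZMod.val_eq_zero]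
        by_cases hy0 : y = 0
        · simp [hy0]
        · simp [hy0]
      rw [h3]
      split_ifs with h
      · exact Iff.rfl
      · constructor
        · intro h'; omega
        · intro h'; omega
    · rw [hix, hix]
      have hy := ZMod.val_lt y
      have hz := ZMod.val_lt z
      have h3 : (some y = some z ∨ some z = Jf k (some y)) ↔
          (y.val = z.val ∨ (y.val ≠ 0 ∧ z.val = 2 * k + 1 - y.val)) := by
        simp only [Jf, Option.some.injEq]
        by_cases hy0 : y = 0
        · rw [if_pos hy0]
          subst hy0
          constructor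
          · rintro (h | h)
            · exact Or.inl (congrArg ZMod.val h)
            · exact absurd h (by simp)
          · rintro (h | ⟨h, -⟩)
            · exact Or.inl (ZMod.val_injective _ h)
            · exact absurd (ZMod.val_zero) h
        · rw [if_neg hy0, Option.some.injEq]
          have hy1 : y.val ≠ 0 := fun h => hy0 ((ZMod.val_eq_zero y).1 h)
          have hn := Zig_neg k hy0
          constructor
          · rintro (h | h)
            · exact Or.inl (congrArg ZMod.val h)
            · exact Or.inr ⟨hy1, by rw [h, hn]⟩
          · rintro (h | ⟨-, h⟩)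
            · exact Or.inl (ZMod.val_injective _ h)
            · exact Or.inr (ZMod.val_injective _ (by rw [h, hn]))
      rw [h3]
      split_ifs with h1 h2 h2
      · omega
      · omega
      · omega
      · omega

end Pool.Agent.H.Tc55
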