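import Pool.Agent.H.Tc55.Hag
import Pool.Agent.H.Tc55.Zg
import Pool.Agent.H.Tc55.Left

/-! 2-factorizations of doubled complete multipartite graphs (helper55, MP_0d0865_co). -/

set_option autoImplicit false

namespace Pool.Agent.H.Tc55

open Finset Equiv Pool.Agent.H.Tc26

theorem one {A : Type} [Fintype A] [DecidableEq A] (h4 : 4 ∣ Fintype.card A)
    (h0 : 0 < Fintype.card A) {U : Multiset ℕ} (hU : Bip U) (hs : U.sum = Fintype.card A) :
    DG (fun a b : A => if a = b then 0 else 2) U := by
  obtain ⟨K, V, fK, dK, dV, e1, e2, p, hp, hw⟩ := left hU (hs ▸ h4)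
  obtain ⟨k', hk'⟩ := h4
  obtain ⟨k, rfl⟩ : ∃ k, k' = k + 1 := ⟨k' - 1, by omega⟩
  have fV : Fintype V := Fintype.ofEquiv _ e1
  have hV : U.sum = Fintype.card V := (hp 0).card_eq
  have hKV : Fintype.card V = Fintype.card K * 4 := by
    rw [← Fintype.card_congr e1]; simp
  have hK : Fintype.card (Fin (k + 1)) = Fintype.card K := by
    rw [Fintype.card_fin]; omega
  let f : Fin (k + 1) ≃ K := Fintype.equivOfCardEq hK
  obtain ⟨e0, he0⟩ := Jf_pairs k
  have hb := (ham1 k).blow (by omega) hU (by omega)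
  -- the two identifications
  let E : (K × (Bool × Bool) ≃ V) → (Option (ZMod (2 * k + 1)) × Bool ≃ V) := fun e =>
    (((e0.symm.prodCongr (Equiv.refl Bool)).trans (Equiv.prodAssoc _ _ _)).trans
      (f.prodCongr (Equiv.refl (Bool × Bool)))).trans e
  have hE : ∀ (e : K × (Bool × Bool) ≃ V) (x : Option (ZMod (2 * k + 1)) × Bool),
      E e x = e (f (e0.symm x.1).1, ((e0.symm x.1).2, x.2)) := fun e x => rfl
  have key : ∀ (e : K × (Bool × Bool) ≃ V) (a b : V),
      (if ((E e).symm a).1 = ((E e).symm b).1 ∨ ((E e).symm b).1 = Jf k ((E e).symm a).1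
        then 0 else 1) + k4 e a b = if a = b then 0 else 1 := by
    intro e a b
    obtain ⟨x, rfl⟩ := (E e).surjective a
    obtain ⟨y, rfl⟩ := (E e).surjective b
    rw [Equiv.symm_apply_apply, Equiv.symm_apply_apply, k4, hE, hE, Equiv.symm_apply_apply,
      Equiv.symm_apply_apply]
    have h1 : f (e0.symm x.1).1 = f (e0.symm y.1).1 ↔ x.1 = y.1 ∨ y.1 = Jf k x.1 := by
      rw [f.injective.eq_iff]; exact he0 _ _
    by_cases hxy : x = y
    · subst hxy; simp
    · have h2 : ¬ e (f (e0.symm x.1).1, ((e0.symm x.1).2, x.2)) =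
          e (f (e0.symm y.1).1, ((e0.symm y.1).2, y.2)) := by
        rw [← hE, ← hE]
        exact fun h => hxy ((E e).injective h)
      simp only [h1, h2, not_false_eq_true, and_true, if_false, ne_eq]
      split_ifs <;> rfl
  have h3 : DG (fun a b : V => if a = b then 0 else 2) U := by
    refine ((DG.add (hb.congr (E e1)) (hb.congr (E e2))).add
      (⟨Fin 3, inferInstance, p, hp, hw⟩ : DG (fun a b => k4 e1 a b + k4 e2 a b) U)).ext ?_
    intro a b
    have k1 := key e1 a b
    have k2 := key e2 a b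
    by_cases h : a = b
    · simp only [h, if_true] at k1 k2 ⊢
      omega
    · simp only [h, if_false] at k1 k2 ⊢
      omega
  have hcard : Fintype.card V = Fintype.card A := by omega
  refine (h3.congr (Fintype.equivOfCardEq hcard)).ext ?_
  intro a b
  simp

theorem One_step {A T' T : Type} [Fintype A] [DecidableEq A] [Fintype T'] [DecidableEq T']
    [Fintype T] [DecidableEq T] (hT : Fintype.card T = Fintype.card T' * 2)
    (h0 : 2 ≤ Fintype.card A * Fintype.card T')
    (h : DG (fun a b : A × T' => if a.1 = b.1 then 0 else 2)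
      {Fintype.card A * Fintype.card T'}) {U : Multiset ℕ} (hU : Bip U)
    (hs : U.sum = Fintype.card A * Fintype.card T) :
    DG (fun a b : A × T => if a.1 = b.1 then 0 else 2) U := by
  have h1 := h.blow h0 hU (by rw [hs, hT]; ring)
  have hT' : Fintype.card (T' × Bool) = Fintype.card T := by simp [hT]
  let e : (A × T') × Bool ≃ A × T := (Equiv.prodAssoc _ _ _).trans
    ((Equiv.refl A).prodCongr (Fintype.equivOfCardEq hT'))
  have he : ∀ x, (e x).1 = x.1.1 := fun x => rfl
  refine (h1.congr e).ext ?_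
  intro a b
  obtain ⟨x, rfl⟩ := e.surjective a
  obtain ⟨y, rfl⟩ := e.surjective b
  simp only [Equiv.symm_apply_apply, he]

theorem One_ham {A : Type} [Fintype A] [DecidableEq A]
    (h2 : 2 ∣ Fintype.card A) (h0 : 0 < Fintype.card A) : ∀ (d : ℕ) (T : Type) [Fintype T]
    [DecidableEq T], Fintype.card T = 2 ^ d →
    DG (fun a b : A × T => if a.1 = b.1 then 0 else 2) {Fintype.card A * Fintype.card T} := by
  intro d
  induction d with
  | zero =>
    intro T _ _ hT
    obtain ⟨k', hk'⟩ := h2
    obtain ⟨k, rfl⟩ : ∃ k, k' = k + 1 := ⟨k' - 1, by omega⟩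
    rw [hT]
    have hc : Fintype.card (Option (ZMod (2 * k + 1))) = Fintype.card A := by
      rw [Fintype.card_option, ZMod.card]; omega
    have hT1 : Fintype.card Unit = Fintype.card T := by rw [hT]; simp
    let e : Option (ZMod (2 * k + 1)) ≃ A × T := (Equiv.prodPUnit _).symm.trans
      ((Fintype.equivOfCardEq hc).prodCongr (Fintype.equivOfCardEq hT1))
    have he : ∀ x y, (e x).1 = (e y).1 ↔ x = y := by
      intro x y
      change Fintype.equivOfCardEq hc x = Fintype.equivOfCardEq hc y ↔ _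
      exact (Fintype.equivOfCardEq hc).injective.eq_iff
    have h1 : 2 * k + 2 = Fintype.card A * 2 ^ 0 := by omega
    rw [← h1]
    refine ((ham2 k).congr e).ext ?_
    intro a b
    obtain ⟨x, rfl⟩ := e.surjective a
    obtain ⟨y, rfl⟩ := e.surjective b
    simp only [Equiv.symm_apply_apply, he]
  | succ d ih =>
    intro T _ _ hT
    have h1 := ih (Fin (2 ^ d)) (by simp)
    have hp : 1 ≤ 2 ^ d := Nat.one_le_two_pow
    have hA : 2 ≤ Fintype.card A := Nat.le_of_dvd h0 h2
    have hT2 : Fintype.card T = Fintype.card (Fin (2 ^ d)) * 2 := by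
      rw [hT, Fintype.card_fin]; ring
    refine One_step hT2 ?_ h1 ?_ (by simp)
    · rw [Fintype.card_fin]; nlinarith
    · intro u hu
      rw [Multiset.mem_singleton] at hu
      subst hu
      refine ⟨Dvd.dvd.mul_right h2 _, ?_⟩
      rw [hT2, Fintype.card_fin]
      nlinarith

theorem multi {A T : Type} [Fintype A] [DecidableEq A] [Fintype T] [DecidableEq T]
    (h2 : 2 ∣ Fintype.card A) (h0 : 0 < Fintype.card A) (d : ℕ)
    (hT : Fintype.card T = 2 ^ (d + 1)) {U : Multiset ℕ} (hU : Bip U)
    (hs : U.sum = Fintype.card A * 2 ^ (d + 1)) :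
    DG (fun a b : A × T => if a.1 = b.1 then 0 else 2) U := by
  have hA : 2 ≤ Fintype.card A := Nat.le_of_dvd h0 h2
  have hp : 1 ≤ 2 ^ d := Nat.one_le_two_pow
  refine One_step (T' := Fin (2 ^ d)) (by rw [hT, Fintype.card_fin]; ring) ?_
    (One_ham h2 h0 d _ (by simp)) hU (by rw [hs, hT])
  rw [Fintype.card_fin]; nlinarith

end Pool.Agent.H.Tc55
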